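import Pool.Agent.Lib.MP_4d246d_lc.Prog

/-! Bit length of the concrete linear program. -/

namespace Pool.Agent.Simplex

variable {k Λ : ℕ}

theorem al_abs (e : Fin 6) : (al e).natAbs ≤ 1 := by revert e; decide
theorem be_abs (e : Fin 6) : (be e).natAbs ≤ 1 := by revert e; decide
theorem ga_abs (e : Fin 6) : (ga e).natAbs ≤ 1 := by revert e; decide

theorem cs_abs (e : Fin 6) (s h : ℕ) : (cs e (s : ℤ) (h : ℤ)).natAbs ≤ s + h := by
  fin_cases e <;> simp [cs]

theorem size_le_of_le {a b n : ℕ} (h : a ≤ b) (hb : b < 2 ^ n) : a.size ≤ n :=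
  Nat.size_le.2 (h.trans_lt hb)

theorem th_lt {l : ℕ} (hΛ : 2 ≤ Λ) (hl : l < k) : th Λ l < 2 ^ (k * Λ.size) := by
  unfold th
  calc Λ ^ (l + 1) ≤ Λ ^ k := Nat.pow_le_pow_right (by omega) hl
    _ < (2 ^ Λ.size) ^ k := Nat.pow_lt_pow_left (Nat.lt_size_self Λ) (by omega)
    _ = 2 ^ (k * Λ.size) := by rw [← pow_mul, mul_comm]

theorem A_size (hΛ : 2 ≤ Λ) (i : Fin (6 * k)) (j : Fin (2 * k)) :
    ((prog k Λ).A i j).natAbs.size ≤ k * Λ.size := by
  have hl : (i : ℕ) / 6 < k := by omega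
  refine size_le_of_le ?_ (th_lt hΛ hl)
  have h1 := th_pos hΛ ((i : ℕ) / 6)
  have ha := al_abs (Fin.ofNat 6 i)
  have hb := be_abs (Fin.ofNat 6 i)
  have hc := ga_abs (Fin.ofNat 6 i)
  simp only [prog]
  split_ifs
  · rw [Int.natAbs_neg]; omega
  · rw [Int.natAbs_mul, Int.natAbs_neg, Int.natAbs_natCast]
    calc th Λ _ * (ga (Fin.ofNat 6 i)).natAbs ≤ th Λ _ * 1 := Nat.mul_le_mul_left _ hc
      _ = _ := mul_one _
  · rw [Int.natAbs_mul, Int.natAbs_neg, Int.natAbs_natCast]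
    calc th Λ _ * (be (Fin.ofNat 6 i)).natAbs ≤ th Λ _ * 1 := Nat.mul_le_mul_left _ hb
      _ = _ := mul_one _
  · simp

theorem b_size (hΛ : 2 ≤ Λ) (i : Fin (6 * k)) :
    ((prog k Λ).b i).natAbs.size ≤ 3 + 2 * k + 3 * (k * Λ.size) := by
  have hl : (i : ℕ) / 6 < k := by omega
  set l := (i : ℕ) / 6 with hldef
  have hk : 1 ≤ k := by omega
  have hP : 1 ≤ Λ ^ (2 * k) := Nat.one_le_pow _ _ (by omega)
  have hth : th Λ l ≤ Λ ^ k := by unfold th; exact Nat.pow_le_pow_right (by omega) hl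
  have hk2 : Λ ^ k ≤ Λ ^ (2 * k) := Nat.pow_le_pow_right (by omega) (by omega)
  have hs : ss k Λ l ≤ Λ ^ (2 * k) := by
    unfold ss; exact Nat.pow_le_pow_right (by omega) (by omega)
  have hbb : th Λ l * bb k Λ (l + 1) ≤ 2 * (3 ^ k * Λ ^ (3 * k)) := by
    unfold bb
    calc th Λ l * (3 ^ (l + 1) * (2 * Λ ^ (2 * k))) ≤ Λ ^ k * (3 ^ k * (2 * Λ ^ (2 * k))) :=
          Nat.mul_le_mul hth (Nat.mul_le_mul_right _ (Nat.pow_le_pow_right (by omega) hl))
      _ = 2 * (3 ^ k * Λ ^ (3 * k)) := by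
          have : Λ ^ (3 * k) = Λ ^ k * Λ ^ (2 * k) := by rw [← pow_add]; congr 1; ring
          rw [this]; ring
  have h3 : Λ ^ (2 * k) ≤ 3 ^ k * Λ ^ (3 * k) := by
    calc Λ ^ (2 * k) ≤ Λ ^ (3 * k) := Nat.pow_le_pow_right (by omega) (by omega)
      _ ≤ 3 ^ k * Λ ^ (3 * k) := Nat.le_mul_of_pos_left _ (by positivity)
  have hlt : 3 ^ k * Λ ^ (3 * k) ≤ 2 ^ (2 * k) * 2 ^ (3 * (k * Λ.size)) := by
    apply Nat.mul_le_mul
    · calc 3 ^ k ≤ 4 ^ k := Nat.pow_le_pow_left (by norm_num) k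
        _ = 2 ^ (2 * k) := by rw [pow_mul]; norm_num
    · calc Λ ^ (3 * k) ≤ (2 ^ Λ.size) ^ (3 * k) :=
            Nat.pow_le_pow_left (Nat.lt_size_self Λ).le _
        _ = 2 ^ (3 * (k * Λ.size)) := by rw [← pow_mul]; congr 1; ring
  refine size_le_of_le (b := 7 * (3 ^ k * Λ ^ (3 * k))) ?_ ?_
  · have e1 : ((prog k Λ).b i).natAbs ≤ (ss k Λ l + th Λ l * bb k Λ (l + 1)) +
        (ss k Λ l + 1) + th Λ l + th Λ l := by
      simp only [prog]
      refine (Int.natAbs_sub_le _ _).trans (Nat.add_le_add ?_ ?_)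
      · refine (Int.natAbs_sub_le _ _).trans (Nat.add_le_add ?_ ?_)
        · refine (Int.natAbs_sub_le _ _).trans (Nat.add_le_add ?_ ?_)
          · exact cs_abs _ _ _
          · rw [Int.natAbs_mul]
            have : ((ss k Λ l : ℕ) + 1 : ℤ).natAbs = ss k Λ l + 1 := by omega
            calc _ ≤ 1 * (ss k Λ l + 1) := Nat.mul_le_mul (al_abs _) this.le
              _ = _ := one_mul _
        · split_ifs
          · simp
          · rw [Int.natAbs_mul, Int.natAbs_natCast]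
            calc th Λ l * (be (Fin.ofNat 6 i)).natAbs ≤ th Λ l * 1 :=
                  Nat.mul_le_mul_left _ (be_abs _)
              _ = _ := mul_one _
      · rw [Int.natAbs_mul, Int.natAbs_natCast]
        calc th Λ l * (ga (Fin.ofNat 6 i)).natAbs ≤ th Λ l * 1 :=
              Nat.mul_le_mul_left _ (ga_abs _)
          _ = _ := mul_one _
    omega
  · calc 7 * (3 ^ k * Λ ^ (3 * k)) < 8 * (3 ^ k * Λ ^ (3 * k)) := by
          have : 0 < 3 ^ k * Λ ^ (3 * k) := by positivity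
          omega
      _ ≤ 8 * (2 ^ (2 * k) * 2 ^ (3 * (k * Λ.size))) := Nat.mul_le_mul_left _ hlt
      _ = 2 ^ (3 + 2 * k + 3 * (k * Λ.size)) := by
          rw [pow_add, pow_add]; norm_num [mul_assoc]

theorem bits_le (hΛ : 2 ≤ Λ) (hk : 1 ≤ k) : (prog k Λ).bits ≤ 100 * k ^ 3 * Λ.size := by
  have hL : 1 ≤ Λ.size := by
    have : 0 < Λ.size := Nat.size_pos.2 (by omega)
    exact this
  set L := Λ.size with hLdef
  have hkL : 1 ≤ k * L := Nat.mul_pos hk hL
  have h1 : ∑ i, ∑ j, (((prog k Λ).A i j).natAbs.size + 1) ≤ (6 * k) * ((2 * k) * (2 * (k * L))) := by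
    calc ∑ i, ∑ j, (((prog k Λ).A i j).natAbs.size + 1)
        ≤ ∑ _i : Fin (6 * k), ∑ _j : Fin (2 * k), 2 * (k * L) := by
          apply Finset.sum_le_sum; intro i _
          apply Finset.sum_le_sum; intro j _
          have := A_size hΛ i j
          rw [← hLdef] at this
          omega
      _ = _ := by simp
  have h2 : ∑ i, (((prog k Λ).b i).natAbs.size + 1) ≤ (6 * k) * (9 * (k * L)) := by
    calc ∑ i, (((prog k Λ).b i).natAbs.size + 1)
        ≤ ∑ _i : Fin (6 * k), 9 * (k * L) := by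
          apply Finset.sum_le_sum; intro i _
          have := b_size hΛ i
          have h3 : k ≤ k * L := Nat.le_mul_of_pos_right _ hL
          rw [← hLdef] at this
          omega
      _ = _ := by simp
  have h3 : ∑ j, (((prog k Λ).c j).natAbs.size + 1) ≤ (2 * k) * 2 := by
    calc ∑ j, (((prog k Λ).c j).natAbs.size + 1)
        ≤ ∑ _j : Fin (2 * k), 2 := by
          apply Finset.sum_le_sum; intro j _
          have : ((prog k Λ).c j).natAbs.size ≤ 1 := by
            apply Nat.size_le.2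
            simp only [prog]
            split_ifs <;> norm_num
          omega
      _ = _ := by simp
  have h4 : (prog k Λ).bits ≤ (6 * k) * ((2 * k) * (2 * (k * L))) + (6 * k) * (9 * (k * L)) +
      (2 * k) * 2 := by
    unfold LP.bits
    omega
  refine h4.trans ?_
  have k2 : k ^ 2 * L ≤ k ^ 3 * L := Nat.mul_le_mul_right _ (Nat.pow_le_pow_right hk (by norm_num))
  have k3 : k ≤ k ^ 3 * L := by
    calc k = k ^ 1 * 1 := by ring
      _ ≤ k ^ 3 * L := Nat.mul_le_mul (Nat.pow_le_pow_right hk (by norm_num)) hL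
  have e1 : (6 * k) * ((2 * k) * (2 * (k * L))) = 24 * (k ^ 3 * L) := by ring
  have e2 : (6 * k) * (9 * (k * L)) = 54 * (k ^ 2 * L) := by ring
  have e3 : 100 * k ^ 3 * L = 100 * (k ^ 3 * L) := by ring
  rw [e1, e2, e3]
  omega

end Pool.Agent.Simplex
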