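import Pool.Agent.Lib.MP_4d246d_lc.Hexagon

/-! The combinatorial game behind the lower bound. -/

namespace Pool.Agent.Simplex

/-- position of vertex type `u` on its way up (`o = true`) or down (`o = false`) -/
def pos (o : Bool) (u : Fin 6) : ℕ :=
  match o, u with
  | true, 0 => 0
  | true, 1 => 1
  | true, 2 => 2
  | true, 3 => 3
  | true, 4 => 2
  | true, 5 => 1
  | false, 0 => 3
  | false, 1 => 2
  | false, 2 => 1
  | false, 3 => 0
  | false, 4 => 1
  | false, 5 => 2

/-- orientation passed to the level below -/
def low (o : Bool) (u : Fin 6) : Bool := decide (pos o u ≤ 1)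

/-- orientation of level `i`, given the orientation `o` above level `k - 1` -/
def ori : ℕ → Bool → (ℕ → Fin 6) → ℕ → Bool
  | 0, o, _, _ => o
  | k + 1, o, σ, i => if i = k then o else ori k (low o (σ k)) σ i

/-- `3 (2 ^ k - 1)` -/
def Mk : ℕ → ℕ
  | 0 => 0
  | k + 1 => 2 * Mk k + 3

/-- all levels below `k` are at their destination -/
def Dest : ℕ → Bool → (ℕ → Fin 6) → Prop
  | 0, _, _ => True
  | k + 1, o, σ => pos o (σ k) = 3 ∧ Dest k false σ

/-- invariant -/
def Inv : ℕ → Bool → (ℕ → Fin 6) → Prop
  | 0, _, _ => True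
  | k + 1, o, σ => (pos o (σ k) = 1 → Dest k true σ) ∧ (pos o (σ k) ≠ 1 → Inv k (low o (σ k)) σ)

/-- potential -/
def Pot : ℕ → Bool → (ℕ → Fin 6) → ℕ
  | 0, _, _ => 0
  | k + 1, o, σ =>
    if pos o (σ k) = 0 then Pot k true σ + 3 + Mk k
    else if pos o (σ k) = 1 then 2 + Mk k
    else if pos o (σ k) = 2 then 1 + Pot k false σ
    else Pot k false σ

theorem Mk_eq (k : ℕ) : Mk k = 3 * (2 ^ k - 1) := by
  induction k with
  | zero => rfl
  | succ k ih =>
    have : 1 ≤ 2 ^ k := Nat.one_le_two_pow
    rw [Mk, ih, pow_succ]; omega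

theorem pos_le (o : Bool) (u : Fin 6) : pos o u ≤ 3 := by
  revert o u; decide

theorem pos_not (o : Bool) (u : Fin 6) : pos (!o) u = 3 - pos o u := by
  revert o u; decide

theorem low_false {o : Bool} {u : Fin 6} (h : 2 ≤ pos o u) : low o u = false := by
  simp [low]; omega

theorem low_true {o : Bool} {u : Fin 6} (h : pos o u ≤ 1) : low o u = true := by
  simp [low]; omega

theorem Dest.congr {k : ℕ} {o : Bool} {σ σ' : ℕ → Fin 6} (h : ∀ l < k, σ' l = σ l)
    (hd : Dest k o σ) : Dest k o σ' := by
  induction k generalizing o with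
  | zero => trivial
  | succ k ih =>
    refine ⟨?_, ih (fun l hl => h l (by omega)) hd.2⟩
    rw [h k (by omega)]; exact hd.1

theorem Inv.congr {k : ℕ} {o : Bool} {σ σ' : ℕ → Fin 6} (h : ∀ l < k, σ' l = σ l)
    (hd : Inv k o σ) : Inv k o σ' := by
  induction k generalizing o with
  | zero => trivial
  | succ k ih =>
    unfold Inv
    rw [h k (by omega)]
    exact ⟨fun h1 => (hd.1 h1).congr fun l hl => h l (by omega),
      fun h1 => ih (fun l hl => h l (by omega)) (hd.2 h1)⟩

theorem Pot.congr {k : ℕ} {o : Bool} {σ σ' : ℕ → Fin 6} (h : ∀ l < k, σ' l = σ l) :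
    Pot k o σ' = Pot k o σ := by
  induction k generalizing o with
  | zero => rfl
  | succ k ih =>
    simp only [Pot]
    rw [h k (by omega), ih fun l hl => h l (by omega), ih fun l hl => h l (by omega)]

theorem Dest.pot {k : ℕ} {o : Bool} {σ : ℕ → Fin 6} (hd : Dest k o σ) : Pot k o σ = 0 := by
  induction k generalizing o with
  | zero => rfl
  | succ k ih =>
    simp only [Pot, hd.1]
    simpa using ih hd.2

theorem Dest.flip {k : ℕ} {o : Bool} {σ : ℕ → Fin 6} (hd : Dest k o σ) :
    Pot k (!o) σ = Mk k ∧ Inv k (!o) σ := by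
  induction k generalizing o with
  | zero => exact ⟨rfl, trivial⟩
  | succ k ih =>
    have h1 := hd.1
    have h2 := ih hd.2
    simp only [Bool.not_false] at h2
    have h3 : pos (!o) (σ k) = 0 := by rw [pos_not, h1]
    refine ⟨?_, ?_⟩
    · simp only [Pot, h3, if_true, h2.1, Mk]; ring
    · refine ⟨fun h => by omega, fun _ => ?_⟩
      rw [low_true (by omega)]
      exact h2.2

theorem ori_low {k : ℕ} {o : Bool} {σ : ℕ → Fin 6} {i j : ℕ} (hij : i < j) (hjk : j < k) :
    ori k o σ i = ori j (low (ori k o σ j) (σ j)) σ i := by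
  induction k generalizing o with
  | zero => omega
  | succ k ih =>
    by_cases h : j = k
    · subst h
      simp only [ori, if_neg hij.ne, if_true]
    · simp only [ori, if_neg h, if_neg (show i ≠ k by omega)]
      exact ih (by omega)

theorem dest_iff {k : ℕ} {o : Bool} {σ : ℕ → Fin 6} :
    Dest k o σ ↔ ∀ i < k, pos (ori k o σ i) (σ i) = 3 := by
  induction k generalizing o with
  | zero => simp [Dest]
  | succ k ih =>
    constructor
    · rintro ⟨h1, h2⟩ i hi
      by_cases h : i = k
      · subst h; simpa [ori] using h1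
      · simp only [ori, if_neg h]
        rw [low_false (by omega)]
        exact ih.1 h2 i (by omega)
    · intro h
      have h1 := h k (by omega)
      simp only [ori, if_true] at h1
      refine ⟨h1, ih.2 fun i hi => ?_⟩
      have h2 := h i (by omega)
      simp only [ori, if_neg hi.ne] at h2
      rwa [low_false (by omega)] at h2

/-- One admissible move decreases the potential by at most one. -/
theorem step {k : ℕ} {o : Bool} {σ σ' : ℕ → Fin 6} {i : ℕ} (hi : i < k)
    (hσ : ∀ l < k, l ≠ i → σ' l = σ l) (hI : Inv k o σ)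
    (hp : pos (ori k o σ i) (σ' i) = pos (ori k o σ i) (σ i) + 1)
    (hg : pos (ori k o σ i) (σ i) = 0 → Dest i true σ) :
    Inv k o σ' ∧ Pot k o σ ≤ Pot k o σ' + 1 := by
  induction k generalizing o with
  | zero => omega
  | succ k ih =>
    by_cases h : i = k
    · subst h
      simp only [ori, if_true] at hp hg
      have hc : ∀ l < i, σ' l = σ l := fun l hl => hσ l (by omega) hl.ne
      have hle := pos_le o (σ' i)
      have hcase : pos o (σ i) = 0 ∨ pos o (σ i) = 1 ∨ pos o (σ i) = 2 := by omega
      rcases hcase with h0 | h0 | h0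
      · have hd := hg h0
        refine ⟨⟨fun _ => hd.congr hc, fun h1 => by omega⟩, ?_⟩
        simp only [Pot, hp, h0]
        have := hd.pot
        simp
        omega
      · have hd := hI.1 h0
        have hf := hd.flip
        simp only [Bool.not_true] at hf
        have e1 : Pot i false σ' = Mk i := by rw [Pot.congr hc, hf.1]
        refine ⟨⟨fun h1 => by omega, fun _ => ?_⟩, ?_⟩
        · rw [low_false (by omega)]
          exact hf.2.congr hc
        · simp only [Pot, hp, h0, e1]
          simp
          omega
      · have hI' := hI.2 (by omega)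
        rw [low_false (by omega)] at hI'
        have e1 : Pot i false σ' = Pot i false σ := Pot.congr hc
        refine ⟨⟨fun h1 => by omega, fun _ => ?_⟩, ?_⟩
        · rw [low_false (by omega)]
          exact hI'.congr hc
        · simp only [Pot, hp, h0, e1]
          simp
          omega
    · simp only [ori, if_neg h] at hp hg
      have hk : σ' k = σ k := hσ k (by omega) (Ne.symm h)
      have hσ2 : ∀ l < k, l ≠ i → σ' l = σ l := fun l hl => hσ l (by omega)
      have hle := pos_le o (σ k)
      have hcase : pos o (σ k) = 0 ∨ pos o (σ k) = 1 ∨ pos o (σ k) = 2 ∨ pos o (σ k) = 3 := by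
        omega
      rcases hcase with h0 | h0 | h0 | h0
      · rw [low_true (by omega)] at hp hg
        have hI' := hI.2 (by omega)
        rw [low_true (by omega)] at hI'
        obtain ⟨a1, a2⟩ := ih (by omega) hσ2 hI' hp hg
        refine ⟨⟨fun h1 => by rw [hk] at h1; omega, fun _ => ?_⟩, ?_⟩
        · rw [hk, low_true (by omega)]; exact a1
        · simp only [Pot, hk, h0, if_true]; omega
      · exfalso
        have hd := hI.1 h0
        rw [low_true (by omega)] at hp
        have := dest_iff.1 hd i (by omega)
        have h2 := pos_le (ori k true σ i) (σ' i)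
        omega
      · rw [low_false (by omega)] at hp hg
        have hI' := hI.2 (by omega)
        rw [low_false (by omega)] at hI'
        obtain ⟨a1, a2⟩ := ih (by omega) hσ2 hI' hp hg
        refine ⟨⟨fun h1 => by rw [hk] at h1; omega, fun _ => ?_⟩, ?_⟩
        · rw [hk, low_false (by omega)]; exact a1
        · simp only [Pot, hk, h0]
          simp
          omega
      · rw [low_false (by omega)] at hp hg
        have hI' := hI.2 (by omega)
        rw [low_false (by omega)] at hI'
        obtain ⟨a1, a2⟩ := ih (by omega) hσ2 hI' hp hg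
        refine ⟨⟨fun h1 => by rw [hk] at h1; omega, fun _ => ?_⟩, ?_⟩
        · rw [hk, low_false (by omega)]; exact a1
        · simp only [Pot, hk, h0]
          simp
          omega

theorem start (k : ℕ) : Inv k true (fun _ => 0) ∧ Pot k true (fun _ => 0) = Mk k := by
  induction k with
  | zero => exact ⟨trivial, rfl⟩
  | succ k ih =>
    refine ⟨⟨fun h => absurd (show (0 : ℕ) = 1 from h) (by decide), fun _ => ?_⟩, ?_⟩
    · exact ih.1
    · simp only [Pot, Mk, ih.2]
      simp [pos]
      ring

end Pool.Agent.Simplex
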