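import Pool.Agent.Lib.MP_4d246d_lc.Cube
import Pool.Agent.Lib.MP_4d246d_lc.Comb

/-! Iterated hexagon products: existence of edges, their gains and the rows they leave. -/

namespace Pool.Agent.Simplex

open Set

/-- `u` and `u'` are neighbours on the hexagon -/
def Nb (u u' : Fin 6) : Prop := u' = nxt u ∨ u' = prd u

instance (u u' : Fin 6) : Decidable (Nb u u') := inferInstanceAs (Decidable (_ ∨ _))

/-- The row left by the step from `u` to `u'`. -/
def lv (u u' : Fin 6) : Fin 6 := if u' = nxt u then prd u else u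

/-- sign of an orientation -/
def sB (o : Bool) : ℝ := if o then 1 else -1

theorem sB_sq (o : Bool) : sB o * sB o = 1 := by cases o <;> norm_num [sB]

theorem sB_low (o : Bool) (u : Fin 6) : sB (low o u) = sB o * sg u := by
  cases o <;> fin_cases u <;> simp [sB, low, pos, sg]

theorem pr_top {σ : ℕ → Fin 6} {i : ℕ} (d : ℝ) {j : ℕ} (hj : i < j) (o : Bool) :
    sB o * pr σ i d j = sB (ori j o σ i) * d := by
  induction j generalizing o with
  | zero => omega
  | succ j ih =>
    by_cases h : i = j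
    · subst h; rw [pr_self]; simp [ori]
    · rw [pr_ne σ _ (Ne.symm h)]
      simp only [ori, if_neg h]
      rw [← ih (by omega), sB_low]; ring

/-- size of the vertical step out of position `q` -/
def stv (q : ℕ) (τ H a : ℝ) : ℝ := if q = 1 then H - 2 * a - 2 * τ else τ

/-- size of the horizontal step out of position `q` -/
def sth (q : ℕ) (τ : ℝ) : ℝ := if q = 1 then 0 else τ

/-- slack gained by the row left at position `q` -/
def stl (q : ℕ) (τ H a : ℝ) : ℝ :=
  if q = 0 then 2 * τ else if q = 1 then H - 2 * a - 2 * τ else τ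

theorem nb_pos {o : Bool} {u u' : Fin 6} (h : Nb u u') :
    pos o u' = pos o u + 1 ∨ pos o u = pos o u' + 1 := by
  revert o u u'; decide

theorem nb_symm {u u' : Fin 6} (h : Nb u u') : Nb u' u := by
  revert u u'; decide

theorem nb_ne {u u' : Fin 6} (h : Nb u u') : u' ≠ u := by
  revert u u'; decide

theorem exists_nb {o : Bool} {u : Fin 6} (h : pos o u ≠ 3) :
    ∃ u', Nb u u' ∧ pos o u' = pos o u + 1 := by
  revert o u; decide

theorem step_b {o : Bool} {u u' : Fin 6} (h : Nb u u') (hp : pos o u' = pos o u + 1)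
    (τ H a : ℝ) : sB o * (bv u' τ H a - bv u τ H a) = stv (pos o u) τ H a := by
  cases o <;> fin_cases u <;> fin_cases u' <;>
    first
    | exact absurd h (by decide)
    | exact absurd hp (by decide)
    | (simp [sB, bv, stv, pos]; try ring)

theorem step_g {o : Bool} {u u' : Fin 6} (h : Nb u u') (hp : pos o u' = pos o u + 1)
    {τ : ℝ} (hτ : 0 < τ) : |gv u' τ - gv u τ| = sth (pos o u) τ := by
  cases o <;> fin_cases u <;> fin_cases u' <;>
    first
    | exact absurd h (by decide)
    | exact absurd hp (by decide)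
    | simp [gv, sth, pos, abs_of_pos hτ]

theorem step_l {o : Bool} {u u' : Fin 6} (h : Nb u u') (hp : pos o u' = pos o u + 1)
    (τ H a : ℝ) : sl6 (lv u u') τ H (gv u' τ) a (bv u' τ H a) = stl (pos o u) τ H a := by
  cases o <;> fin_cases u <;> fin_cases u' <;>
    first
    | exact absurd h (by decide)
    | exact absurd hp (by decide)
    | (simp [sl6, lv, nxt, prd, gv, bv, stl, pos]; try ring)

/-- the rows tight at `u` and not at `u'` -/
theorem lv_iff {u u' e : Fin 6} (h : Nb u u') :
    ((e = u ∨ e = prd u) ∧ ¬ (e = u' ∨ e = prd u')) ↔ e = lv u u' := by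
  revert u u' e; decide

/-- points on a row of the hexagon -/
theorem hex_edge {τ H g a b : ℝ} (hτ : 0 < τ) (hD : 2 * a + 2 * τ < H)
    (h : ∀ e, 0 ≤ sl6 e τ H g a b) {e : Fin 6} (he : sl6 e τ H g a b = 0) :
    ∃ t : ℝ, 0 ≤ t ∧ t ≤ 1 ∧ g = (1 - t) * gv e τ + t * gv (nxt e) τ ∧
      b = (1 - t) * bv e τ H a + t * bv (nxt e) τ H a := by
  have h0 := h 0
  have h1 := h 1
  have h2 := h 2
  have h3 := h 3
  have h4 := h 4
  have h5 := h 5
  have hD' : 0 < H - 2 * a - 2 * τ := by linarith
  simp only [sl6] at h0 h1 h2 h3 h4 h5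
  fin_cases e <;> simp only [sl6] at he <;> simp only [gv, bv, nxt]
  · have ht := div_mul_cancel₀ g hτ.ne'
    refine ⟨g / τ, div_nonneg (by linarith) hτ.le, (div_le_one hτ).2 (by linarith), ?_, ?_⟩
    · linear_combination -ht
    · linear_combination he - ht
  · have ht := div_mul_cancel₀ (b - a - τ) hD'.ne'
    refine ⟨(b - a - τ) / (H - 2 * a - 2 * τ), div_nonneg (by linarith) hD'.le,
      (div_le_one hD').2 (by linarith), by linarith, ?_⟩
    linear_combination -ht
  · have ht := div_mul_cancel₀ (τ - g) hτ.ne'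
    refine ⟨(τ - g) / τ, div_nonneg (by linarith) hτ.le, (div_le_one hτ).2 (by linarith), ?_, ?_⟩
    · linear_combination ht
    · linear_combination -he - ht
  · have ht := div_mul_cancel₀ (-g) hτ.ne'
    refine ⟨-g / τ, div_nonneg (by linarith) hτ.le, (div_le_one hτ).2 (by linarith), ?_, ?_⟩
    · linear_combination ht
    · linear_combination -he + ht
  · have ht := div_mul_cancel₀ (H - a - τ - b) hD'.ne'
    refine ⟨(H - a - τ - b) / (H - 2 * a - 2 * τ), div_nonneg (by linarith) hD'.le,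
      (div_le_one hD').2 (by linarith), by linarith, ?_⟩
    linear_combination ht
  · have ht := div_mul_cancel₀ (g + τ) hτ.ne'
    refine ⟨(g + τ) / τ, div_nonneg (by linarith) hτ.le, (div_le_one hτ).2 (by linarith), ?_, ?_⟩
    · linear_combination -ht
    · linear_combination he + ht

/-- `σ'` arises from `σ` by one step at level `i` -/
def Flip (k : ℕ) (σ σ' : ℕ → Fin 6) (i : ℕ) : Prop :=
  i < k ∧ Nb (σ i) (σ' i) ∧ ∀ l < k, l ≠ i → σ' l = σ l

theorem Flip.symm {k : ℕ} {σ σ' : ℕ → Fin 6} {i : ℕ} (h : Flip k σ σ' i) : Flip k σ' σ i :=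
  ⟨h.1, nb_symm h.2.1, fun l hl hli => (h.2.2 l hl hli).symm⟩

namespace Coord

variable {E : Type*} [AddCommGroup E] [Module ℝ E] {k : ℕ} {C : Coord E k} {p : Par k}

theorem flip_nxt {x y : E} {σ σ' : ℕ → Fin 6} (hx : C.At p x σ) (hy : C.At p y σ') {i : ℕ}
    (hi : i < k) (hu : σ' i = nxt (σ i)) (hσ : ∀ l < k, l ≠ i → σ' l = σ l) :
    IsExtreme ℝ (C.poly p) (segment ℝ x y) := by
  have hface := (C.sys p).face_extreme {r | (C.sys p).sl r x = 0 ∧ (C.sys p).sl r y = 0}
  suffices hseg : segment ℝ x y = {z | z ∈ (C.sys p).P ∧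
      ∀ r ∈ {r | (C.sys p).sl r x = 0 ∧ (C.sys p).sl r y = 0}, (C.sys p).sl r z = 0} by
    rw [hseg]; exact hface
  ext z
  constructor
  · rintro ⟨a, b, ha, hb, hab, rfl⟩
    constructor
    · intro r
      rw [(C.sys p).combo r hab]
      have h1 : 0 ≤ (C.sys p).sl r x := hx.mem r
      have h2 : 0 ≤ (C.sys p).sl r y := hy.mem r
      positivity
    · rintro r ⟨h1, h2⟩
      rw [(C.sys p).combo r hab, h1, h2]; simp
  · rintro ⟨hz, hT⟩
    have hT' : ∀ l < k, ∀ e, (e = σ l ∨ e = prd (σ l)) → (e = σ' l ∨ e = prd (σ' l)) →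
        sl6 e (p.τ l) (p.H l) (C.G z l) (C.F z l) (C.F z (l + 1)) = 0 := by
      intro l hl e h1 h2
      exact hT (⟨l, hl⟩, e) ⟨(hx.tight hl).2 h1, (hy.tight hl).2 h2⟩
    have hz' := (mem_poly C p).1 hz
    -- all levels except `i` are at the vertex
    have hoff : ∀ l < k, l ≠ i → C.G z l = gv (σ l) (p.τ l) ∧
        C.F z (l + 1) = bv (σ l) (p.τ l) (p.H l) (C.F z l) := by
      intro l hl hli
      apply sl6_det
      · exact hT' l hl _ (Or.inl rfl) (Or.inl (hσ l hl hli).symm)
      · exact hT' l hl _ (Or.inr rfl) (Or.inr (by rw [hσ l hl hli]))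
    have hFlow : ∀ l ≤ i, C.F z l = C.F x l ∧ C.F y l = C.F x l := by
      intro l
      induction l with
      | zero => intro _; simp [C.F_zero]
      | succ l ih =>
        intro hl
        obtain ⟨i1, i2⟩ := ih (by omega)
        rw [(hoff l (by omega) (by omega)).2, (hx l (by omega)).2, (hy l (by omega)).2,
          hσ l (by omega) (by omega), i1, i2]
        exact ⟨rfl, rfl⟩
    have hrow : sl6 (σ i) (p.τ i) (p.H i) (C.G z i) (C.F z i) (C.F z (i + 1)) = 0 :=
      hT' i hi _ (Or.inl rfl) (Or.inr (by rw [hu, prd_nxt]))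
    obtain ⟨t, ht0, ht1, htg, htb⟩ := hex_edge (p.τpos i hi) (D_mem hz hi) (hz' i hi) hrow
    rw [segment_eq_image]
    refine ⟨t, ⟨ht0, ht1⟩, ?_⟩
    have hw : (1 - t) • x + t • y = x + t • (y - x) := by module
    have hF : ∀ l ≤ k, C.F z l = (1 - t) * C.F x l + t * C.F y l := by
      intro l
      induction l with
      | zero => intro _; simp [C.F_zero]
      | succ l ih =>
        intro hl
        have ihl := ih (by omega)
        by_cases hli : l = i
        · subst hli
          rw [htb, (hx l hi).2, (hy l hi).2, hu, (hFlow l le_rfl).1, (hFlow l le_rfl).2]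
        · have hs := hoff l (by omega) hli
          rw [hs.2, (hx l (by omega)).2, (hy l (by omega)).2, hσ l (by omega) hli]
          have e1 := bv_sub (σ l) (p.τ l) (p.H l) (C.F z l) (C.F x l)
          have e2 := bv_sub (σ l) (p.τ l) (p.H l) (C.F y l) (C.F x l)
          have e3 : C.F z l - C.F x l = t * (C.F y l - C.F x l) := by rw [ihl]; ring
          rw [e3] at e1
          linear_combination e1 - t * e2
    apply C.ext
    intro l hl
    simp only [hw]
    constructor
    · rw [C.G_add, map_smul, smul_eq_mul, C.g_sub]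
      by_cases hli : l = i
      · subst hli
        rw [htg, (hx l hl).1, (hy l hl).1, hu]; ring
      · rw [(hoff l hl hli).1, (hx l hl).1, (hy l hl).1, hσ l hl hli]; ring
    · rw [C.F_add, map_smul, smul_eq_mul, C.f_sub, hF (l + 1) hl]; ring

/-- Steps are edges. -/
theorem flip_edge {x y : E} {σ σ' : ℕ → Fin 6} (hx : C.At p x σ) (hy : C.At p y σ') {i : ℕ}
    (h : Flip k σ σ' i) : x ≠ y ∧ IsExtreme ℝ (C.poly p) (segment ℝ x y) := by
  obtain ⟨hi, hu, hσ⟩ := h
  constructor
  · rintro rfl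
    have h1 := (hx.tight hi (e := lv (σ i) (σ' i)))
    have h2 := (hy.tight hi (e := lv (σ i) (σ' i)))
    have h3 := (lv_iff hu (e := lv (σ i) (σ' i))).2 rfl
    exact h3.2 (h2.1 (h1.2 h3.1))
  · rcases hu with hu | hu
    · exact flip_nxt hx hy hi hu hσ
    · rw [segment_symm]
      exact flip_nxt hy hx hi (by rw [hu, nxt_prd]) fun l hl hli => (hσ l hl hli).symm

/-- Edges are steps. -/
theorem edge_flip' {x y : E} {σ : ℕ → Fin 6} (hx : C.At p x σ)
    (hy : y ∈ (C.poly p).extremePoints ℝ)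
    (hxy : x ≠ y) (hE : IsExtreme ℝ (C.poly p) (segment ℝ x y)) :
    ∃ σ' i, C.At p y σ' ∧ Flip k σ σ' i := by
  obtain ⟨σ', hy'⟩ := exists_types hy
  obtain ⟨i, hi, h1, h2⟩ := edge_flip hx hy' hxy hE
  exact ⟨σ', i, hy', hi, h1, h2⟩

theorem flip_low {x y : E} {σ σ' : ℕ → Fin 6} (hx : C.At p x σ) (hy : C.At p y σ') {i : ℕ}
    (h : Flip k σ σ' i) : ∀ l ≤ i, C.F y l = C.F x l := by
  obtain ⟨hi, hu, hσ⟩ := h
  intro l
  induction l with
  | zero => intro _; simp [C.F_zero]
  | succ l ih =>
    intro hl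
    rw [(hx l (by omega)).2, (hy l (by omega)).2, hσ l (by omega) (by omega), ih (by omega)]

theorem flip_F {x y : E} {σ σ' : ℕ → Fin 6} (hx : C.At p x σ) (hy : C.At p y σ') {i : ℕ}
    (h : Flip k σ σ' i) : ∀ l ≤ k, C.F y l - C.F x l =
      pr σ i (bv (σ' i) (p.τ i) (p.H i) (C.F x i) - bv (σ i) (p.τ i) (p.H i) (C.F x i)) l := by
  have hlow := flip_low hx hy h
  obtain ⟨hi, hu, hσ⟩ := h
  intro l
  induction l with
  | zero => intro _; simp [C.F_zero, pr]
  | succ l ih =>
    intro hl
    by_cases hli : l = i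
    · subst hli
      rw [pr_self, (hx l hi).2, (hy l hi).2, hlow l le_rfl]
    · rw [pr_ne σ _ hli, ← ih (by omega), (hx l (by omega)).2, (hy l (by omega)).2,
        hσ l (by omega) hli, bv_sub]

theorem flip_G {x y : E} {σ σ' : ℕ → Fin 6} (hx : C.At p x σ) (hy : C.At p y σ') {i : ℕ}
    (h : Flip k σ σ' i) : ∀ l < k, C.G y l - C.G x l =
      if l = i then gv (σ' i) (p.τ i) - gv (σ i) (p.τ i) else 0 := by
  obtain ⟨hi, hu, hσ⟩ := h
  intro l hl
  rw [(hx l hl).1, (hy l hl).1]
  by_cases hli : l = i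
  · subst hli; rw [if_pos rfl]
  · rw [if_neg hli, hσ l hl hli, sub_self]

/-- increase of the top coordinate along a step -/
theorem flip_gain {x y : E} {σ σ' : ℕ → Fin 6} (hx : C.At p x σ) (hy : C.At p y σ') {i : ℕ}
    (h : Flip k σ σ' i) : C.F y k - C.F x k = sB (ori k true σ i) *
      (bv (σ' i) (p.τ i) (p.H i) (C.F x i) - bv (σ i) (p.τ i) (p.H i) (C.F x i)) := by
  rw [flip_F hx hy h k le_rfl, ← pr_top _ h.1 true]
  simp [sB]

/-- A step increases the top coordinate iff the position advances. -/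
theorem flip_improving {x y : E} {σ σ' : ℕ → Fin 6} (hx : C.At p x σ) (hy : C.At p y σ') {i : ℕ}
    (h : Flip k σ σ' i) : C.F x k < C.F y k ↔
      pos (ori k true σ i) (σ' i) = pos (ori k true σ i) (σ i) + 1 := by
  have hg := flip_gain hx hy h
  have hτ := p.τpos i h.1
  have hD := D_at hx h.1
  have hpos : ∀ q, 0 < stv q (p.τ i) (p.H i) (C.F x i) := by
    intro q; unfold stv; split_ifs <;> linarith
  constructor
  · intro hlt
    rcases nb_pos (o := ori k true σ i) h.2.1 with h1 | h1
    · exact h1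
    · exfalso
      have h2 := step_b (nb_symm h.2.1) h1 (p.τ i) (p.H i) (C.F x i)
      have h3 := hpos (pos (ori k true σ i) (σ' i))
      nlinarith
  · intro h1
    have h2 := step_b h.2.1 h1 (p.τ i) (p.H i) (C.F x i)
    have h3 := hpos (pos (ori k true σ i) (σ i))
    linarith

theorem abs_pr_le (σ : ℕ → Fin 6) (i : ℕ) (d : ℝ) (l : ℕ) : |pr σ i d l| ≤ |d| := by
  induction l with
  | zero => simp [pr]
  | succ l ih =>
    by_cases h : l = i
    · subst h; rw [pr_self]
    · rw [pr_ne σ _ h, abs_mul]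
      have : |sg (σ l)| = 1 := by
        generalize σ l = u
        fin_cases u <;> simp [sg]
      rw [this, one_mul]; exact ih

end Coord

end Pool.Agent.Simplex
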