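import Pool.Agent.Lib.MP_4d246d_lc.LP
import Pool.Agent.Lib.MP_4d246d_lc.Cube2

/-! The concrete linear program. -/

namespace Pool.Agent.Simplex

open Set

/-- coefficient of the horizontal coordinate -/
def al (e : Fin 6) : ℤ :=
  match e with
  | 0 => -1
  | 1 => -1
  | 2 => -1
  | 3 => 1
  | 4 => 1
  | 5 => 1

/-- coefficient of the incoming vertical coordinate -/
def be (e : Fin 6) : ℤ :=
  match e with
  | 0 => -1
  | 1 => 0
  | 2 => -1
  | 3 => -1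
  | 4 => 0
  | 5 => -1

/-- coefficient of the outgoing vertical coordinate -/
def ga (e : Fin 6) : ℤ :=
  match e with
  | 0 => 1
  | 1 => 0
  | 2 => -1
  | 3 => -1
  | 4 => 0
  | 5 => 1

/-- constant term -/
def cs (e : Fin 6) (s h : ℤ) : ℤ :=
  match e with
  | 0 => 0
  | 1 => s
  | 2 => h
  | 3 => h
  | 4 => s
  | 5 => 0

theorem sl6_coef (e : Fin 6) (θ τ H g a b : ℝ) (s h : ℤ) (hs : (s : ℝ) = θ * τ)
    (hh : (h : ℝ) = θ * H) :
    θ * sl6 e τ H g a b = cs e s h + al e * (θ * g) + θ * be e * a + θ * ga e * b := by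
  fin_cases e <;> simp only [sl6, al, be, ga, cs] <;> push_cast <;>
    first
    | linear_combination -hs
    | linear_combination -hh
    | ring

/-- value of a vector at a natural number index -/
def xe {N : ℕ} (x : Fin N → ℝ) (n : ℕ) : ℝ := if h : n < N then x ⟨n, h⟩ else 0

theorem xe_fin {N : ℕ} (x : Fin N → ℝ) (j : Fin N) : xe x j = x j := by
  simp [xe]

theorem xe_add {N : ℕ} (x y : Fin N → ℝ) (n : ℕ) : xe (x + y) n = xe x n + xe y n := by
  unfold xe; split_ifs <;> simp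

theorem xe_smul {N : ℕ} (c : ℝ) (x : Fin N → ℝ) (n : ℕ) : xe (c • x) n = c * xe x n := by
  unfold xe; split_ifs <;> simp

theorem xe_sub {N : ℕ} (x y : Fin N → ℝ) (n : ℕ) : xe (x - y) n = xe x n - xe y n := by
  unfold xe; split_ifs <;> simp

theorem sum3 {N : ℕ} (x : Fin N → ℝ) (l : ℕ) (hl : 2 * l + 1 < N) (a b c : ℤ) :
    ∑ j : Fin N, ((if (j : ℕ) = 2 * l then a else if (j : ℕ) = 2 * l + 1 then b else
      if (j : ℕ) + 1 = 2 * l then c else 0 : ℤ) : ℝ) * x j =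
      a * xe x (2 * l) + b * xe x (2 * l + 1) + if l = 0 then 0 else c * xe x (2 * l - 1) := by
  let f : ℕ → ℝ := fun n => (if n = 2 * l then a * xe x (2 * l) else 0) +
        (if n = 2 * l + 1 then b * xe x (2 * l + 1) else 0) +
        (if n + 1 = 2 * l then c * xe x (2 * l - 1) else 0)
  have h1 : ∀ j : Fin N, ((if (j : ℕ) = 2 * l then a else if (j : ℕ) = 2 * l + 1 then b else
      if (j : ℕ) + 1 = 2 * l then c else 0 : ℤ) : ℝ) * x j = f (j : ℕ) := by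
    intro j
    rw [← xe_fin x j]
    simp only [f]
    generalize (j : ℕ) = n
    by_cases h1 : n = 2 * l
    · subst h1
      have h2 : ¬ (2 * l = 2 * l + 1) := by omega
      have h3 : ¬ (2 * l + 1 = 2 * l) := by omega
      rw [if_pos rfl, if_pos rfl, if_neg h2, if_neg h3]
      ring
    · by_cases h2 : n = 2 * l + 1
      · subst h2
        have h3 : ¬ (2 * l + 1 + 1 = 2 * l) := by omega
        rw [if_neg h1, if_neg h1, if_pos rfl, if_pos rfl, if_neg h3]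
        ring
      · by_cases h3 : n + 1 = 2 * l
        · have h4 : n = 2 * l - 1 := by omega
          rw [if_neg h1, if_neg h1, if_neg h2, if_neg h2, if_pos h3, if_pos h3, ← h4]
          ring
        · rw [if_neg h1, if_neg h1, if_neg h2, if_neg h2, if_neg h3, if_neg h3]
          simp
  rw [Finset.sum_congr rfl fun j _ => h1 j, Fin.sum_univ_eq_sum_range f N]
  simp only [f]
  rw [Finset.sum_add_distrib,
    Finset.sum_add_distrib, Finset.sum_ite_eq', Finset.sum_ite_eq',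
    if_pos (Finset.mem_range.2 (by omega)), if_pos (Finset.mem_range.2 hl)]
  congr 1
  by_cases h0 : l = 0
  · subst h0; simp
  · rw [if_neg h0]
    have : ∀ n : ℕ, (n + 1 = 2 * l) = (n = 2 * l - 1) := by
      intro n; apply propext; omega
    simp only [this]
    rw [Finset.sum_ite_eq', if_pos (Finset.mem_range.2 (by omega))]

/-! ### Parameters -/

/-- `θ_l = Λ ^ (l + 1)` -/
def th (Λ l : ℕ) : ℕ := Λ ^ (l + 1)

/-- `τ_l = Λ ^ (2 k - 2 - 2 l)` -/
def ta (k Λ l : ℕ) : ℕ := Λ ^ (2 * k - 2 - 2 * l)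

/-- `s_l = Λ ^ (2 k - 1 - l)` -/
def ss (k Λ l : ℕ) : ℕ := Λ ^ (2 * k - 1 - l)

/-- `B_l = 3 ^ l * 2 * Λ ^ (2 k)` -/
def bb (k Λ l : ℕ) : ℕ := 3 ^ l * (2 * Λ ^ (2 * k))

theorem th_ta {k Λ l : ℕ} (hl : l < k) : ss k Λ l = th Λ l * ta k Λ l := by
  unfold ss th ta
  rw [← pow_add]; congr 1; omega

theorem th_ta_real {k Λ l : ℕ} (hl : l < k) :
    ((ss k Λ l : ℕ) : ℝ) = (th Λ l : ℕ) * (ta k Λ l : ℕ) := by
  rw [th_ta hl]; push_cast; ring

theorem th_pos {Λ : ℕ} (hΛ : 2 ≤ Λ) (l : ℕ) : 0 < th Λ l := by unfold th; positivity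
theorem ta_pos {k Λ : ℕ} (hΛ : 2 ≤ Λ) (l : ℕ) : 0 < ta k Λ l := by unfold ta; positivity

theorem ta_lt {k Λ l : ℕ} (hΛ : 2 ≤ Λ) (hl : l < k) : ta k Λ l < Λ ^ (2 * k) := by
  unfold ta
  exact Nat.pow_lt_pow_right (by omega) (by omega)

theorem pow_le_bb {k Λ : ℕ} (l : ℕ) : 2 * Λ ^ (2 * k) ≤ bb k Λ l := by
  unfold bb
  exact Nat.le_mul_of_pos_left _ (by positivity)

/-- the parameters of the polytope -/
noncomputable def par (k Λ : ℕ) (hΛ : 2 ≤ Λ) : Par k where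
  τ l := (ta k Λ l : ℕ)
  H l := (bb k Λ (l + 1) : ℕ)
  B l := (bb k Λ l : ℕ)
  τpos l _ := by exact_mod_cast ta_pos hΛ l
  B0 := by positivity
  hD l hl := by
    have h1 := ta_lt (k := k) hΛ hl
    have h2 := pow_le_bb (k := k) (Λ := Λ) l
    have h3 : bb k Λ (l + 1) = 3 * bb k Λ l := by unfold bb; ring
    rw [h3]
    have : 2 * bb k Λ l + 2 * ta k Λ l < 3 * bb k Λ l := by omega
    exact_mod_cast this
  hB l _ := le_rfl

/-- evaluation at a natural number index as a linear map -/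
def xel (N n : ℕ) : (Fin N → ℝ) →ₗ[ℝ] ℝ where
  toFun x := xe x n
  map_add' x y := xe_add x y n
  map_smul' c x := xe_smul c x n

/-- the coordinates -/
noncomputable def crd (k Λ : ℕ) (hΛ : 2 ≤ Λ) : Coord (Fin (2 * k) → ℝ) k where
  g l := ((th Λ l : ℕ) : ℝ)⁻¹ • xel (2 * k) (2 * l)
  f l := if l = 0 then 0 else xel (2 * k) (2 * l - 1)
  t j := if (j : ℕ) % 2 = 0 then (ss k Λ ((j : ℕ) / 2) : ℕ) + 1 else 1
  f0 := rfl
  inj q hq := by
    ext j
    have hl : (j : ℕ) / 2 < k := by omega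
    obtain ⟨h1, h2⟩ := hq _ hl
    have hθ : ((th Λ ((j : ℕ) / 2) : ℕ) : ℝ) ≠ 0 := by
      exact_mod_cast (th_pos hΛ _).ne'
    rcases Nat.mod_two_eq_zero_or_one (j : ℕ) with h | h
    · have hj : 2 * ((j : ℕ) / 2) = j := by omega
      simp only [LinearMap.smul_apply, smul_eq_mul, hj] at h1
      rcases mul_eq_zero.1 h1 with h' | h'
      · exact absurd h' (inv_ne_zero hθ)
      · simpa [xel, xe_fin] using h'
    · have hj : 2 * ((j : ℕ) / 2 + 1) - 1 = j := by omega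
      simp only [Nat.add_eq_zero_iff, one_ne_zero, and_false, if_false, hj] at h2
      simpa [xel, xe_fin] using h2
  surj α β := by
    refine ⟨fun j => if (j : ℕ) % 2 = 0 then (th Λ ((j : ℕ) / 2) : ℕ) * α ((j : ℕ) / 2)
      else β ((j : ℕ) / 2), fun l hl => ?_⟩
    have hθ : ((th Λ l : ℕ) : ℝ) ≠ 0 := by exact_mod_cast (th_pos hΛ _).ne'
    constructor
    · have h1 : 2 * l < 2 * k := by omega
      have h3 : 2 * l / 2 = l := by omega
      simp [xel, xe, h1, h3, hθ]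
    · have h1 : 2 * (l + 1) - 1 < 2 * k := by omega
      have h2 : (2 * (l + 1) - 1) % 2 = 1 := by omega
      have h3 : (2 * (l + 1) - 1) / 2 = l := by omega
      simp [xel, xe, h1, h2, h3]

/-- the linear program -/
def prog (k Λ : ℕ) : LP (6 * k) (2 * k) where
  A i j :=
    if (j : ℕ) = 2 * ((i : ℕ) / 6) then -al (Fin.ofNat 6 i)
    else if (j : ℕ) = 2 * ((i : ℕ) / 6) + 1 then
      -((th Λ ((i : ℕ) / 6) : ℕ) : ℤ) * ga (Fin.ofNat 6 i)
    else if (j : ℕ) + 1 = 2 * ((i : ℕ) / 6) then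
      -((th Λ ((i : ℕ) / 6) : ℕ) : ℤ) * be (Fin.ofNat 6 i)
    else 0
  b i := cs (Fin.ofNat 6 i) (ss k Λ ((i : ℕ) / 6) : ℕ)
        ((th Λ ((i : ℕ) / 6) * bb k Λ ((i : ℕ) / 6 + 1) : ℕ) : ℤ)
      - al (Fin.ofNat 6 i) * ((ss k Λ ((i : ℕ) / 6) : ℕ) + 1)
      - (if (i : ℕ) / 6 = 0 then 0 else ((th Λ ((i : ℕ) / 6) : ℕ) : ℤ) * be (Fin.ofNat 6 i))
      - ((th Λ ((i : ℕ) / 6) : ℕ) : ℤ) * ga (Fin.ofNat 6 i)
  c j := if (j : ℕ) + 1 = 2 * k then 1 else 0

section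
variable {k Λ : ℕ} {hΛ : 2 ≤ Λ}

theorem crd_G (x : Fin (2 * k) → ℝ) {l : ℕ} (hl : l < k) :
    ((th Λ l : ℕ) : ℝ) * (crd k Λ hΛ).G x l = xe x (2 * l) - ((ss k Λ l : ℕ) + 1) := by
  have hθ : ((th Λ l : ℕ) : ℝ) ≠ 0 := by exact_mod_cast (th_pos hΛ _).ne'
  have h1 : 2 * l < 2 * k := by omega
  have h3 : 2 * l / 2 = l := by omega
  simp [Coord.G, crd, xel, xe, h3, hl]
  field_simp

theorem crd_F (x : Fin (2 * k) → ℝ) {l : ℕ} (hl : l < k) :
    (crd k Λ hΛ).F x (l + 1) = xe x (2 * l + 1) - 1 := by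
  have h1 : 2 * l + 1 < 2 * k := by omega
  have h2 : (2 * l + 1) % 2 = 1 := by omega
  have h4 : 2 * (l + 1) - 1 = 2 * l + 1 := by omega
  simp [Coord.F, crd, xel, xe, h1, h2, h4]

theorem slack_eq (x : Fin (2 * k) → ℝ) (i : Fin (6 * k)) {l : ℕ} {e : Fin 6}
    (hl : (i : ℕ) / 6 = l) (he : Fin.ofNat 6 i = e) :
    ((prog k Λ).b i : ℝ) - (prog k Λ).row i x = (th Λ l : ℕ) *
      sl6 e ((par k Λ hΛ).τ l) ((par k Λ hΛ).H l) ((crd k Λ hΛ).G x l) ((crd k Λ hΛ).F x l)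
        ((crd k Λ hΛ).F x (l + 1)) := by
  have hlk : l < k := by omega
  have hrow : (prog k Λ).row i x = ∑ j : Fin (2 * k), ((if (j : ℕ) = 2 * l then -al e else
      if (j : ℕ) = 2 * l + 1 then -((th Λ l : ℕ) : ℤ) * ga e else
      if (j : ℕ) + 1 = 2 * l then -((th Λ l : ℕ) : ℤ) * be e else 0 : ℤ) : ℝ) * x j := by
    simp only [LP.row, prog, hl, he]
  rw [sum3 x l (by omega)] at hrow
  have hb : ((prog k Λ).b i : ℝ) = ((cs e (ss k Λ l : ℕ)
        ((th Λ l * bb k Λ (l + 1) : ℕ) : ℤ)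
      - al e * ((ss k Λ l : ℕ) + 1)
      - (if l = 0 then 0 else ((th Λ l : ℕ) : ℤ) * be e)
      - ((th Λ l : ℕ) : ℤ) * ga e : ℤ) : ℝ) := by
    simp only [prog, hl, he]
  rw [hrow, hb, sl6_coef e _ _ _ _ _ _ (ss k Λ l : ℕ) ((th Λ l * bb k Λ (l + 1) : ℕ) : ℤ)
    (by
      have := th_ta_real (Λ := Λ) hlk
      simpa [par] using this) (by simp [par]), crd_G x hlk, crd_F x hlk]
  by_cases h0 : l = 0
  · subst h0
    simp only [if_true, Coord.F_zero]
    push_cast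
    ring
  · obtain ⟨l', rfl⟩ : ∃ l', l = l' + 1 := ⟨l - 1, by omega⟩
    rw [crd_F x (by omega : l' < k)]
    simp only [if_neg h0]
    have : 2 * (l' + 1) - 1 = 2 * l' + 1 := by omega
    rw [this]
    push_cast
    ring

end

end Pool.Agent.Simplex
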