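import Mathlib

/-! Hexagons: rows and vertex types are numbered cyclically by `Fin 6`; vertex `u` lies on the
rows `u` and `prd u`. -/

namespace Pool.Agent.Simplex

/-- cyclic predecessor -/
def prd (u : Fin 6) : Fin 6 :=
  match u with
  | 0 => 5
  | 1 => 0
  | 2 => 1
  | 3 => 2
  | 4 => 3
  | 5 => 4

/-- cyclic successor -/
def nxt (u : Fin 6) : Fin 6 :=
  match u with
  | 0 => 1
  | 1 => 2
  | 2 => 3
  | 3 => 4
  | 4 => 5
  | 5 => 0

theorem prd_nxt (u : Fin 6) : prd (nxt u) = u := by fin_cases u <;> rfl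
theorem nxt_prd (u : Fin 6) : nxt (prd u) = u := by fin_cases u <;> rfl

/-- slack functions of the hexagon -/
def sl6 (e : Fin 6) (τ H g a b : ℝ) : ℝ :=
  match e with
  | 0 => b - a - g
  | 1 => τ - g
  | 2 => H - a - b - g
  | 3 => H - a - b + g
  | 4 => τ + g
  | 5 => b - a + g

/-- linear parts of the slack functions -/
def ln6 (e : Fin 6) (g a b : ℝ) : ℝ :=
  match e with
  | 0 => b - a - g
  | 1 => - g
  | 2 => - a - b - g
  | 3 => - a - b + g
  | 4 => g
  | 5 => b - a + g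

theorem sl6_add (e : Fin 6) (τ H g a b g' a' b' : ℝ) :
    sl6 e τ H (g + g') (a + a') (b + b') = sl6 e τ H g a b + ln6 e g' a' b' := by
  fin_cases e <;> simp only [sl6, ln6] <;> ring

/-- horizontal coordinate of vertex `u` -/
def gv (u : Fin 6) (τ : ℝ) : ℝ :=
  match u with
  | 0 => 0
  | 1 => τ
  | 2 => τ
  | 3 => 0
  | 4 => -τ
  | 5 => -τ

/-- vertical coordinate of vertex `u` -/
def bv (u : Fin 6) (τ H a : ℝ) : ℝ :=
  match u with
  | 0 => a
  | 1 => a + τ
  | 2 => H - a - τ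
  | 3 => H - a
  | 4 => H - a - τ
  | 5 => a + τ

/-- sign of the dependence of the vertical coordinate on `a` -/
def sg (u : Fin 6) : ℝ :=
  match u with
  | 0 => 1
  | 1 => 1
  | 2 => -1
  | 3 => -1
  | 4 => -1
  | 5 => 1

theorem sg_sq (u : Fin 6) : sg u * sg u = 1 := by
  fin_cases u <;> norm_num [sg]

theorem bv_sub (u : Fin 6) (τ H a a' : ℝ) : bv u τ H a - bv u τ H a' = sg u * (a - a') := by
  fin_cases u <;> simp only [bv, sg] <;> ring

theorem sl6_self (u : Fin 6) (τ H a : ℝ) : sl6 u τ H (gv u τ) a (bv u τ H a) = 0 := by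
  fin_cases u <;> simp only [sl6, gv, bv] <;> ring

theorem sl6_prd (u : Fin 6) (τ H a : ℝ) : sl6 (prd u) τ H (gv u τ) a (bv u τ H a) = 0 := by
  fin_cases u <;> simp only [sl6, gv, bv, prd] <;> ring

theorem sl6_pos {u e : Fin 6} {τ H a : ℝ} (hτ : 0 < τ) (hD : 2 * a + 2 * τ < H)
    (h1 : e ≠ u) (h2 : e ≠ prd u) : 0 < sl6 e τ H (gv u τ) a (bv u τ H a) := by
  fin_cases u <;> fin_cases e <;>
    first
    | exact absurd rfl h1
    | exact absurd rfl h2
    | (simp only [sl6, gv, bv]; linarith)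

theorem sl6_nonneg {u e : Fin 6} {τ H a : ℝ} (hτ : 0 < τ) (hD : 2 * a + 2 * τ < H) :
    0 ≤ sl6 e τ H (gv u τ) a (bv u τ H a) := by
  by_cases h1 : e = u
  · rw [h1, sl6_self]
  by_cases h2 : e = prd u
  · rw [h2, sl6_prd]
  exact (sl6_pos hτ hD h1 h2).le

/-- two tight rows determine the vertex -/
theorem sl6_det {u : Fin 6} {τ H g a b : ℝ}
    (h1 : sl6 u τ H g a b = 0) (h2 : sl6 (prd u) τ H g a b = 0) :
    g = gv u τ ∧ b = bv u τ H a := by
  fin_cases u <;> simp only [sl6, prd, gv, bv] at h1 h2 ⊢ <;> constructor <;> linarith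

theorem ln6_det {u : Fin 6} {g a b : ℝ} :
    (ln6 u g a b = 0 ∧ ln6 (prd u) g a b = 0) ↔ (g = 0 ∧ b = sg u * a) := by
  fin_cases u <;> simp only [ln6, prd, sg] <;> constructor <;> rintro ⟨h1, h2⟩ <;>
    constructor <;> linarith

/-- In a nondegenerate hexagon, a point is either a vertex or lies on at most one row. -/
theorem hex_cases {τ H g a b : ℝ} (hτ : 0 < τ) (hD : 2 * a + 2 * τ < H)
    (h : ∀ e, 0 ≤ sl6 e τ H g a b) :
    (∃ u, g = gv u τ ∧ b = bv u τ H a) ∨ ∃ e₀, ∀ e, sl6 e τ H g a b = 0 → e = e₀ := by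
  have h0 := h 0
  have h1 := h 1
  have h2 := h 2
  have h3 := h 3
  have h4 := h 4
  have h5 := h 5
  by_cases HH : ∃ e e' : Fin 6, e ≠ e' ∧ sl6 e τ H g a b = 0 ∧ sl6 e' τ H g a b = 0
  · left
    obtain ⟨e, e', hne, he, he'⟩ := HH
    have key : e' = prd e ∨ e = prd e' := by
      fin_cases e <;> fin_cases e' <;>
        first
        | exact absurd rfl hne
        | exact Or.inl rfl
        | exact Or.inr rfl
        | (exfalso
           simp only [sl6] at he he' h0 h1 h2 h3 h4 h5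
           linarith)
    rcases key with rfl | rfl
    · exact ⟨e, sl6_det he he'⟩
    · exact ⟨e', sl6_det he' he⟩
  · right
    push Not at HH
    by_cases H2 : ∃ e, sl6 e τ H g a b = 0
    · obtain ⟨e, he⟩ := H2
      refine ⟨e, fun e' he' => ?_⟩
      by_contra hne
      exact HH e' e hne he' he
    · push Not at H2
      exact ⟨0, fun e he => absurd he (H2 e)⟩

/-- direction of row `e` -/
def edg (e : Fin 6) : ℝ :=
  match e with
  | 0 => 1
  | 1 => 0
  | 2 => -1
  | 3 => -1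
  | 4 => 0
  | 5 => 1

/-- direction of row `e` -/
def edb (e : Fin 6) : ℝ :=
  match e with
  | 0 => 1
  | 1 => 1
  | 2 => 1
  | 3 => -1
  | 4 => -1
  | 5 => -1

theorem ln6_ed (e : Fin 6) : ln6 e (edg e) 0 (edb e) = 0 := by
  fin_cases e <;> simp only [ln6, edg, edb] <;> norm_num

theorem edb_ne (e : Fin 6) : edb e ≠ 0 := by
  fin_cases e <;> norm_num [edb]

/-- distinct vertices that are not neighbours share no row -/
theorem share {u u' e : Fin 6} (hne : u ≠ u') (h1 : e = u ∨ e = prd u) (h2 : e = u' ∨ e = prd u') :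
    (u' = nxt u ∧ e = u) ∨ (u' = prd u ∧ e = prd u) := by
  revert u u' e; decide

end Pool.Agent.Simplex
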