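import Pool.Agent.Lib.MP_4d246d_lc.Poly
import Pool.Agent.Lib.MP_4d246d_lc.Hexagon

/-! Iterated hexagon products: classification of vertices and edges. -/

namespace Pool.Agent.Simplex

open Set

/-- Affine coordinates `G_l`, `F_l` on a real vector space. -/
structure Coord (E : Type*) [AddCommGroup E] [Module ℝ E] (k : ℕ) where
  g : ℕ → E →ₗ[ℝ] ℝ
  f : ℕ → E →ₗ[ℝ] ℝ
  t : E
  f0 : f 0 = 0
  inj : ∀ q, (∀ l < k, g l q = 0 ∧ f (l + 1) q = 0) → q = 0
  surj : ∀ α β : ℕ → ℝ, ∃ q, ∀ l < k, g l q = α l ∧ f (l + 1) q = β l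

/-- parameters of the polytope -/
structure Par (k : ℕ) where
  τ : ℕ → ℝ
  H : ℕ → ℝ
  B : ℕ → ℝ
  τpos : ∀ l < k, 0 < τ l
  B0 : 0 ≤ B 0
  hD : ∀ l < k, 2 * B l + 2 * τ l < H l
  hB : ∀ l < k, H l ≤ B (l + 1)

/-- propagation of a perturbation -/
def pr (σ : ℕ → Fin 6) (i : ℕ) (d : ℝ) : ℕ → ℝ
  | 0 => 0
  | l + 1 => if l = i then d else sg (σ l) * pr σ i d l

theorem pr_le (σ : ℕ → Fin 6) (i : ℕ) (d : ℝ) : ∀ l, l ≤ i → pr σ i d l = 0
  | 0, _ => rfl
  | l + 1, h => by
    have h1 : l ≠ i := by omega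
    simp only [pr, if_neg h1]
    rw [pr_le σ i d l (by omega), mul_zero]

theorem pr_self (σ : ℕ → Fin 6) (i : ℕ) (d : ℝ) : pr σ i d (i + 1) = d := by
  simp [pr]

theorem pr_ne (σ : ℕ → Fin 6) {i l : ℕ} (d : ℝ) (h : l ≠ i) :
    pr σ i d (l + 1) = sg (σ l) * pr σ i d l := by
  simp [pr, h]

namespace Coord

variable {E : Type*} [AddCommGroup E] [Module ℝ E] {k : ℕ} (C : Coord E k) (p : Par k)

/-- horizontal coordinate at level `l` -/
def G (x : E) (l : ℕ) : ℝ := C.g l (x - C.t)

/-- vertical coordinate entering level `l` -/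
def F (x : E) (l : ℕ) : ℝ := C.f l (x - C.t)

theorem G_add (x q : E) (l : ℕ) : C.G (x + q) l = C.G x l + C.g l q := by
  unfold G
  rw [add_sub_right_comm, map_add]

theorem F_add (x q : E) (l : ℕ) : C.F (x + q) l = C.F x l + C.f l q := by
  unfold F
  rw [add_sub_right_comm, map_add]

theorem g_sub (x y : E) (l : ℕ) : C.g l (y - x) = C.G y l - C.G x l := by
  unfold G; rw [← map_sub]; congr 1; abel

theorem f_sub (x y : E) (l : ℕ) : C.f l (y - x) = C.F y l - C.F x l := by
  unfold F; rw [← map_sub]; congr 1; abel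

theorem F_zero (x : E) : C.F x 0 = 0 := by simp [F, C.f0]

theorem ext {x y : E} (h : ∀ l < k, C.G x l = C.G y l ∧ C.F x (l + 1) = C.F y (l + 1)) : x = y := by
  have : x - y = 0 := C.inj _ fun l hl => by
    rw [C.g_sub, C.f_sub, (h l hl).1, (h l hl).2]; simp
  exact sub_eq_zero.1 this

/-- the linear part of a slack function -/
def lnmap (l : ℕ) (e : Fin 6) : E →ₗ[ℝ] ℝ where
  toFun q := ln6 e (C.g l q) (C.f l q) (C.f (l + 1) q)
  map_add' x y := by
    simp only [map_add]
    fin_cases e <;> simp only [ln6] <;> ring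
  map_smul' c x := by
    simp only [map_smul, smul_eq_mul, RingHom.id_apply]
    fin_cases e <;> simp only [ln6] <;> ring

/-- the system of slack functions -/
def sys : SlackSys (Fin k × Fin 6) E where
  sl i x := sl6 i.2 (p.τ i.1) (p.H i.1) (C.G x i.1) (C.F x i.1) (C.F x (i.1 + 1))
  ln i := C.lnmap i.1 i.2
  add i x q := by
    rw [C.G_add, C.F_add, C.F_add, sl6_add]; rfl

/-- the polytope -/
def poly : Set E := (C.sys p).P

theorem mem_poly {x : E} : x ∈ C.poly p ↔
    ∀ l < k, ∀ e, 0 ≤ sl6 e (p.τ l) (p.H l) (C.G x l) (C.F x l) (C.F x (l + 1)) := by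
  constructor
  · intro h l hl e
    exact h (⟨l, hl⟩, e)
  · rintro h ⟨l, e⟩
    exact h l l.2 e

/-- `x` is the vertex with types `σ` -/
def At (x : E) (σ : ℕ → Fin 6) : Prop :=
  ∀ l < k, C.G x l = gv (σ l) (p.τ l) ∧ C.F x (l + 1) = bv (σ l) (p.τ l) (p.H l) (C.F x l)

variable {C p}

theorem bound {x : E} (hx : x ∈ C.poly p) : ∀ l ≤ k, 0 ≤ C.F x l ∧ C.F x l ≤ p.B l := by
  rw [mem_poly] at hx
  intro l
  induction l with
  | zero => intro _; rw [C.F_zero]; exact ⟨le_rfl, p.B0⟩
  | succ l ih =>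
    intro hl
    have h0 := hx l (by omega) 0
    have h2 := hx l (by omega) 2
    have h3 := hx l (by omega) 3
    have h5 := hx l (by omega) 5
    simp only [sl6] at h0 h2 h3 h5
    obtain ⟨i1, i2⟩ := ih (by omega)
    have := p.hB l (by omega)
    constructor <;> linarith

theorem bound_at {x : E} {σ : ℕ → Fin 6} (h : C.At p x σ) :
    ∀ l ≤ k, 0 ≤ C.F x l ∧ C.F x l ≤ p.B l := by
  intro l
  induction l with
  | zero => intro _; rw [C.F_zero]; exact ⟨le_rfl, p.B0⟩
  | succ l ih =>
    intro hl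
    obtain ⟨i1, i2⟩ := ih (by omega)
    have h1 := p.hB l (by omega)
    have h2 := p.hD l (by omega)
    have h3 := p.τpos l (by omega)
    rw [(h l (by omega)).2]
    generalize σ l = u
    fin_cases u <;> simp only [bv] <;> constructor <;> linarith

theorem D_at {x : E} {σ : ℕ → Fin 6} (h : C.At p x σ) {l : ℕ} (hl : l < k) :
    2 * C.F x l + 2 * p.τ l < p.H l := by
  have h1 := (bound_at h l hl.le).2
  have h2 := p.hD l hl
  linarith

theorem D_mem {x : E} (h : x ∈ C.poly p) {l : ℕ} (hl : l < k) :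
    2 * C.F x l + 2 * p.τ l < p.H l := by
  have h1 := (bound h l hl.le).2
  have h2 := p.hD l hl
  linarith

theorem At.mem {x : E} {σ : ℕ → Fin 6} (h : C.At p x σ) : x ∈ C.poly p := by
  rw [mem_poly]
  intro l hl e
  rw [(h l hl).1, (h l hl).2]
  exact sl6_nonneg (p.τpos l hl) (D_at h hl)

theorem At.tight {x : E} {σ : ℕ → Fin 6} (h : C.At p x σ) {l : ℕ} (hl : l < k) {e : Fin 6} :
    sl6 e (p.τ l) (p.H l) (C.G x l) (C.F x l) (C.F x (l + 1)) = 0 ↔ e = σ l ∨ e = prd (σ l) := by
  rw [(h l hl).1, (h l hl).2]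
  constructor
  · intro h0
    by_contra hne
    push Not at hne
    exact (sl6_pos (p.τpos l hl) (D_at h hl) hne.1 hne.2).ne' h0
  · rintro (rfl | rfl)
    · exact sl6_self _ _ _ _
    · exact sl6_prd _ _ _ _

theorem At.eq {x y : E} {σ : ℕ → Fin 6} (h : C.At p x σ) (h' : C.At p y σ) : x = y := by
  have key : ∀ l ≤ k, C.F x l = C.F y l := by
    intro l
    induction l with
    | zero => intro _; rw [C.F_zero, C.F_zero]
    | succ l ih =>
      intro hl
      rw [(h l (by omega)).2, (h' l (by omega)).2, ih (by omega)]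
  apply C.ext
  intro l hl
  exact ⟨by rw [(h l hl).1, (h' l hl).1], key (l + 1) (by omega)⟩

theorem exists_dir (C : Coord E k) (σ : ℕ → Fin 6) (i : ℕ) (dg db : ℝ) :
    ∃ q, (∀ l < k, C.g l q = if l = i then dg else 0) ∧ ∀ l ≤ k, C.f l q = pr σ i db l := by
  obtain ⟨q, hq⟩ := C.surj (fun l => if l = i then dg else 0) (fun l => pr σ i db (l + 1))
  refine ⟨q, fun l hl => (hq l hl).1, fun l hl => ?_⟩
  cases l with
  | zero => rw [C.f0]; rfl
  | succ l => exact (hq l (by omega)).2

/-- There is a vertex with each type vector. -/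
theorem exists_at (C : Coord E k) (p : Par k) (σ : ℕ → Fin 6) : ∃ x, C.At p x σ := by
  let ph : ℕ → ℝ := fun l => Nat.rec 0 (fun l a => bv (σ l) (p.τ l) (p.H l) a) l
  obtain ⟨q, hq⟩ := C.surj (fun l => gv (σ l) (p.τ l)) (fun l => ph (l + 1))
  have hF : ∀ l ≤ k, C.F (q + C.t) l = ph l := by
    intro l hl
    cases l with
    | zero => rw [C.F_zero]; rfl
    | succ l =>
      unfold F
      rw [add_sub_cancel_right]
      exact (hq l (by omega)).2
  refine ⟨q + C.t, fun l hl => ⟨?_, ?_⟩⟩
  · unfold G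
    rw [add_sub_cancel_right]
    exact (hq l hl).1
  · rw [hF (l + 1) (by omega), hF l hl.le]

theorem At.extreme {x : E} {σ : ℕ → Fin 6} (h : C.At p x σ) :
    x ∈ (C.poly p).extremePoints ℝ := by
  refine (C.sys p).extreme_of_unique {i | (C.sys p).sl i x = 0} h.mem (fun i hi => hi) ?_
  intro y _ hy
  refine At.eq (σ := σ) (C := C) (p := p) ?_ h
  intro l hl
  apply sl6_det
  · exact hy (⟨l, hl⟩, σ l) ((h.tight hl).2 (Or.inl rfl))
  · exact hy (⟨l, hl⟩, prd (σ l)) ((h.tight hl).2 (Or.inr rfl))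

/-- Every vertex has a type vector. -/
theorem exists_types {x : E} (hx : x ∈ (C.poly p).extremePoints ℝ) : ∃ σ, C.At p x σ := by
  have key : ∀ m ≤ k, ∃ σ : ℕ → Fin 6, ∀ l, k - m ≤ l → l < k →
      C.G x l = gv (σ l) (p.τ l) ∧ C.F x (l + 1) = bv (σ l) (p.τ l) (p.H l) (C.F x l) := by
    intro m
    induction m with
    | zero => intro _; exact ⟨fun _ => 0, fun l h1 h2 => by omega⟩
    | succ m ih =>
      intro hm
      obtain ⟨σ, hσ⟩ := ih (by omega)
      have hi : k - (m + 1) < k := by omega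
      set i := k - (m + 1) with hidef
      rcases hex_cases (p.τpos i hi) (D_mem hx.1 hi) ((mem_poly C p).1 hx.1 i hi) with
        ⟨u, hu⟩ | ⟨e, he⟩
      · refine ⟨Function.update σ i u, fun l h1 h2 => ?_⟩
        by_cases hl : l = i
        · subst hl; simpa using hu
        · rw [Function.update_of_ne hl]
          exact hσ l (by omega) h2
      · exfalso
        obtain ⟨q, hq1, hq2⟩ := exists_dir C σ i (edg e) (edb e)
        have hq : q = 0 := by
          refine (C.sys p).dir_zero_of_extreme hx ?_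
          rintro ⟨l, e'⟩ ht
          change sl6 e' (p.τ l) (p.H l) (C.G x l) (C.F x l) (C.F x (l + 1)) = 0 at ht
          change ln6 e' (C.g l q) (C.f l q) (C.f (l + 1) q) = 0
          rw [hq1 l l.2, hq2 l l.2.le, hq2 (l + 1) l.2]
          rcases lt_trichotomy (l : ℕ) i with h | h | h
          · rw [pr_le σ i _ l h.le, pr_le σ i _ (l + 1) h, if_neg h.ne]
            fin_cases e' <;> simp [ln6]
          · rw [if_pos h, h, pr_self, pr_le σ i _ i le_rfl]
            rw [h] at ht
            rw [he e' ht]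
            exact ln6_ed e
          · rw [if_neg h.ne', pr_ne σ _ h.ne']
            have hl := hσ l (by omega) l.2
            have ht' : e' = σ l ∨ e' = prd (σ l) := by
              rw [hl.1, hl.2] at ht
              by_contra hne
              push Not at hne
              exact (sl6_pos (p.τpos l l.2) (D_mem hx.1 l.2) hne.1 hne.2).ne' ht
            have := (ln6_det (u := σ l) (g := 0) (a := pr σ i (edb e) l)
              (b := sg (σ l) * pr σ i (edb e) l)).2 ⟨rfl, rfl⟩
            rcases ht' with h' | h'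
            · rw [h']; exact this.1
            · rw [h']; exact this.2
        have h1 := hq2 (i + 1) (by omega)
        rw [hq, map_zero, pr_self] at h1
        exact edb_ne e h1.symm
  obtain ⟨σ, hσ⟩ := key k le_rfl
  exact ⟨σ, fun l hl => hσ l (by omega) hl⟩

/-- Classification of edges: the types of the ends differ at one level, by one step. -/
theorem edge_flip {x y : E} {σ σ' : ℕ → Fin 6} (hx : C.At p x σ) (hy : C.At p y σ')
    (hxy : x ≠ y) (hE : IsExtreme ℝ (C.poly p) (segment ℝ x y)) :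
    ∃ i < k, (σ' i = nxt (σ i) ∨ σ' i = prd (σ i)) ∧ ∀ l < k, l ≠ i → σ' l = σ l := by
  -- the lowest level where the types differ
  have hex : ∃ i, i < k ∧ σ i ≠ σ' i := by
    by_contra hno
    push Not at hno
    refine hxy (At.eq (σ := σ') (C := C) (p := p) (fun l hl => ?_) hy)
    rw [← hno l hl]
    exact hx l hl
  classical
  let i := Nat.find hex
  obtain ⟨hi, hne⟩ : i < k ∧ σ i ≠ σ' i := Nat.find_spec hex
  have hlow : ∀ l < i, σ l = σ' l := by
    intro l hl
    by_contra h
    exact Nat.find_min hex hl ⟨hl.trans hi, h⟩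
  -- directions
  have hdir : ∀ dg db : ℝ, (∀ e, (e = σ i ∨ e = prd (σ i)) → (e = σ' i ∨ e = prd (σ' i)) →
      ln6 e dg 0 db = 0) → ∃ c : ℝ, (∀ l < k, (if l = i then dg else 0) = c * C.g l (y - x)) ∧
        ∀ l ≤ k, pr σ i db l = c * C.f l (y - x) := by
    intro dg db he
    obtain ⟨q, hq1, hq2⟩ := exists_dir C σ i dg db
    obtain ⟨c, hc⟩ := (C.sys p).dir_of_edge (q := q) hE (by
      rintro ⟨l, e⟩ hlx hly
      change sl6 e (p.τ l) (p.H l) (C.G x l) (C.F x l) (C.F x (l + 1)) = 0 at hlx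
      change sl6 e (p.τ l) (p.H l) (C.G y l) (C.F y l) (C.F y (l + 1)) = 0 at hly
      change ln6 e (C.g l q) (C.f l q) (C.f (l + 1) q) = 0
      rw [hx.tight l.2] at hlx
      rw [hy.tight l.2] at hly
      rw [hq1 l l.2, hq2 l l.2.le, hq2 (l + 1) l.2]
      rcases lt_trichotomy (l : ℕ) i with h | h | h
      · rw [pr_le σ i _ l h.le, pr_le σ i _ (l + 1) h, if_neg h.ne]
        fin_cases e <;> simp [ln6]
      · rw [if_pos h, h, pr_self, pr_le σ i _ i le_rfl]
        rw [h] at hlx hly
        exact he e hlx hly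
      · rw [if_neg h.ne', pr_ne σ _ h.ne']
        have := (ln6_det (u := σ l) (g := 0) (a := pr σ i db l)
          (b := sg (σ l) * pr σ i db l)).2 ⟨rfl, rfl⟩
        rcases hlx with h' | h'
        · rw [h']; exact this.1
        · rw [h']; exact this.2)
    refine ⟨c, fun l hl => ?_, fun l hl => ?_⟩
    · rw [← hq1 l hl, hc, map_smul, smul_eq_mul]
    · rw [← hq2 l hl, hc, map_smul, smul_eq_mul]
  have hadj : σ' i = nxt (σ i) ∨ σ' i = prd (σ i) := by
    by_contra hna
    push Not at hna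
    have hsh : ∀ e, (e = σ i ∨ e = prd (σ i)) → (e = σ' i ∨ e = prd (σ' i)) → False := by
      intro e h1 h2
      rcases share hne h1 h2 with h | h
      · exact hna.1 h.1
      · exact hna.2 h.1
    obtain ⟨c1, h1, h1'⟩ := hdir 1 0 fun e h1 h2 => (hsh e h1 h2).elim
    obtain ⟨c2, h2, h2'⟩ := hdir 0 1 fun e h1 h2 => (hsh e h1 h2).elim
    have a1 := h1 i hi
    have a2 := h1' (i + 1) hi
    have b1 := h2 i hi
    have b2 := h2' (i + 1) hi
    rw [pr_self] at a2 b2
    simp only [if_true] at a1 b1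
    have c1ne : c1 ≠ 0 := by rintro rfl; simp at a1
    have c2ne : c2 ≠ 0 := by rintro rfl; simp at b2
    have z1 : C.f (i + 1) (y - x) = 0 := by
      rcases mul_eq_zero.1 a2.symm with h | h
      · exact absurd h c1ne
      · exact h
    rw [z1] at b2
    simp at b2
  -- the common row
  obtain ⟨e, heq⟩ : ∃ e, ∀ e', (e' = σ i ∨ e' = prd (σ i)) → (e' = σ' i ∨ e' = prd (σ' i)) →
      e' = e := by
    rcases hadj with h | h
    · refine ⟨σ i, fun e' h1 h2 => ?_⟩
      rcases share hne h1 h2 with h' | h'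
      · exact h'.2
      · exfalso
        have := h.symm.trans h'.1
        revert this
        generalize σ i = u
        revert u
        decide
    · refine ⟨prd (σ i), fun e' h1 h2 => ?_⟩
      rcases share hne h1 h2 with h' | h'
      · exfalso
        have := h.symm.trans h'.1
        revert this
        generalize σ i = u
        revert u
        decide
      · exact h'.2
  obtain ⟨c, hc1, hc2⟩ := hdir (edg e) (edb e) fun e' h1 h2 => by
    rw [heq e' h1 h2]; exact ln6_ed e
  have cne : c ≠ 0 := by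
    rintro rfl
    have := hc2 (i + 1) hi
    rw [pr_self] at this
    simp at this
    exact edb_ne e this
  refine ⟨i, hi, hadj, fun l hl hli => ?_⟩
  rcases lt_or_gt_of_ne hli with h | h
  · exact (hlow l h).symm
  have g0 : C.G y l = C.G x l := by
    have := hc1 l hl
    rw [if_neg hli] at this
    rcases mul_eq_zero.1 this.symm with h' | h'
    · exact absurd h' cne
    · rw [C.g_sub] at h'; linarith
  have f0 : C.F y (l + 1) - C.F x (l + 1) = sg (σ l) * (C.F y l - C.F x l) := by
    have h1 := hc2 (l + 1) hl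
    rw [pr_ne σ _ hli, hc2 l hl.le, C.f_sub, C.f_sub] at h1
    have : c * (C.F y (l + 1) - C.F x (l + 1) - sg (σ l) * (C.F y l - C.F x l)) = 0 := by
      linarith
    rcases mul_eq_zero.1 this with h' | h'
    · exact absurd h' cne
    · linarith
  rw [(hx l hl).1, (hy l hl).1] at g0
  rw [(hx l hl).2, (hy l hl).2] at f0
  have hτ := p.τpos l hl
  have hDx := D_at hx hl
  have hDy := D_at hy hl
  revert g0 f0
  generalize σ l = u
  generalize σ' l = u'
  intro g0 f0
  fin_cases u <;> fin_cases u' <;>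
    first
    | rfl
    | (exfalso; simp only [gv] at g0; linarith)
    | (exfalso; simp only [bv, sg] at f0; linarith)

end Coord

end Pool.Agent.Simplex
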