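import Pool.Agent.Lib.MP_4d246d_lc.CI.Cases
import Pool.Agent.Lib.MP_4d246d_lc.Known.Game

/-!
# Pivot rules that do not see `b` and `c` are as good as short paths, up to a polynomial factor

Linear programs `max c x`, `A x ≤ b` with `m` constraints and `n` variables; the real matrix `A` is
given. A blind rule sees neither `b` nor `c`, it sees only the names (sets of tight constraints) of
the visited vertices and of the other ends of their improving edges.

* There are blind rules with polynomially many pivots for all `b` and `c` if the non-zero `n × n`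
  subdeterminants of `A` differ at most by the factor `K`, in particular for totally unimodular
  `A`, and if each row of `A` has at most two non-zero entries, equal to `1` or `-1`.
* Let `U` and `V` be convex sets of right hand sides and of objectives (for instance all of them).
  If for all `b` in `U` and `c` in `V` each vertex is joined to a final vertex by a monotone path
  with at most `D` edges, then one blind rule needs at most `10 m² n size(m) D` pivots, for all
  `b` in `U`, all `c` in `V`, from all vertices; conversely, if a blind rule needs at most `N`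
  pivots, then there are such paths with at most `N` edges.
* For a given polyhedron (`b` is known, only `c` is not seen) `6 n³ size(m) D` pivots suffice.
-/

namespace Pool.Agent.Results.MP_4d246d_lc.DiameterRule

open Pool.Agent.Simplex.Tableau LP

theorem result {m n : ℕ} (A : Matrix (Fin m) (Fin n) ℝ) :
    (∀ K : ℕ, MinorRatioLE A K → ∃ ρ : BlindRule m, ∀ b c,
      Solves ρ ⟨A, b, c⟩ (10 * m ^ 2 * n * Nat.size m * pivotBound m n K)) ∧
    (TwoUnit A → ∃ ρ : BlindRule m, ∀ b c,
      Solves ρ ⟨A, b, c⟩ (10 * m ^ 2 * n * Nat.size m * pivotBound m n 2)) ∧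
    (∀ (U : Set (Fin m → ℝ)) (V : Set (Fin n → ℝ)) (D : ℕ), Convex ℝ U → Convex ℝ V →
      (∀ b ∈ U, ∀ c ∈ V, Reach ⟨A, b, c⟩ D) →
      ∃ ρ : BlindRule m, ∀ b ∈ U, ∀ c ∈ V,
        Solves ρ ⟨A, b, c⟩ (10 * m ^ 2 * n * Nat.size m * D)) ∧
    (∀ (U : Set (Fin m → ℝ)) (V : Set (Fin n → ℝ)) (N : ℕ) (ρ : BlindRule m),
      (∀ b ∈ U, ∀ c ∈ V, Solves ρ ⟨A, b, c⟩ N) → ∀ b ∈ U, ∀ c ∈ V, Reach ⟨A, b, c⟩ N) ∧
    (∀ (b : Fin m → ℝ) (V : Set (Fin n → ℝ)) (D : ℕ), Convex ℝ V →
      (∀ c ∈ V, Reach ⟨A, b, c⟩ D) →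
      ∃ ρ : BlindRule m, ∀ c ∈ V, Solves ρ ⟨A, b, c⟩ (6 * n ^ 3 * Nat.size m * D)) := by
  refine ⟨fun K hK => ?_, fun h => ?_, fun U V D hU hV hD => known_matrix A hU hV hD,
    fun U V N ρ h b hb c hc x₀ hx₀ => ?_, fun b V D hV hD => known_polyhedron A b hV hD⟩
  · obtain ⟨ρ, hρ⟩ := known_matrix A (convex_univ (𝕜 := ℝ)) (convex_univ (𝕜 := ℝ))
      (D := pivotBound m n K) fun b _ c _ x₀ hx₀ =>
        short_path (P := L A b c) (wt := fun _ => 1) (fun _ => one_pos)
          (tableau_of_minors (L A b c) hK) hx₀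
    exact ⟨ρ, fun b c => hρ b trivial c trivial⟩
  · obtain ⟨ρ, hρ⟩ := known_matrix A (convex_univ (𝕜 := ℝ)) (convex_univ (𝕜 := ℝ))
      (D := pivotBound m n 2) fun b _ c _ x₀ hx₀ =>
        short_path (P := L A b c) (wt := fun _ => 1) (fun _ => one_pos)
          (tableau_of_twoUnit (L A b c) h) hx₀
    exact ⟨ρ, fun b c => hρ b trivial c trivial⟩
  · obtain ⟨k, x, hk, hx0, hrun, hfin, _⟩ := h b hb c hc x₀ hx₀
    exact ⟨k, x, hk, hx0, hrun.pivot, hfin⟩

end Pool.Agent.Results.MP_4d246d_lc.DiameterRule
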