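import Pool.Agent.Lib.MP_4d246d_lc.Prog

/-! Domination, optimality and the lower bound on the number of pivots. -/

namespace Pool.Agent.Simplex

open Set

namespace LP

variable {m n : ℕ} {D : LP m n}

theorem Improving.ne {x y : Fin n → ℝ} (h : D.Improving x y) : y - x ≠ 0 :=
  sub_ne_zero.2 (Ne.symm h.1.2.2.1)

/-- A reasonable pivot is not dominated, as soon as every improving edge leaves a row. -/
theorem Reasonable.undom {Λ : ℝ} (hΛ : 1 < Λ) {x y : Fin n → ℝ} (hy : D.Improving x y)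
    (hl : ∀ z, D.Improving x z → ∃ i, D.Leaves x z i) (h : D.Reasonable Λ x y) :
    ¬ ∃ z, D.Dominates Λ x y z := by
  rintro ⟨z, hz, h1, h2, h3, h4⟩
  have gy : 0 < D.obj y - D.obj x := sub_pos.2 hy.2
  have gz : 0 < D.obj z - D.obj x := sub_pos.2 hz.2
  have ny : 0 < ‖y - x‖ := norm_pos_iff.2 hy.ne
  have nz : 0 < ‖z - x‖ := norm_pos_iff.2 hz.ne
  cases h with
  | greatest h =>
    have := h z hz
    nlinarith
  | steepest p hp h =>
    obtain ⟨r, κ, hr, hκ, hp⟩ := hp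
    have h5 := h z hz
    have py := (hp (y - x)).1
    have pz := hp (z - x)
    have ryn : 0 < r * ‖y - x‖ := mul_pos hr ny
    have rzn : 0 < r * ‖z - x‖ := mul_pos hr nz
    have hpy : 0 < p (y - x) := lt_of_lt_of_le ryn py
    have hpz : 0 < p (z - x) := lt_of_lt_of_le rzn pz.1
    rw [div_le_div_iff₀ hpz hpy] at h5
    rw [← mul_div_assoc, div_le_div_iff₀ ny nz] at h3
    -- gz * (r ny) ≤ gz * p y ≤ gy * p z ≤ gy * κ r nz < Λ gy r nz ≤ gz ny r
    have a1 : (D.obj z - D.obj x) * (r * ‖y - x‖) ≤ (D.obj z - D.obj x) * p (y - x) :=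
      mul_le_mul_of_nonneg_left py gz.le
    have a2 : (D.obj y - D.obj x) * p (z - x) ≤ (D.obj y - D.obj x) * (κ * (r * ‖z - x‖)) :=
      mul_le_mul_of_nonneg_left pz.2 gy.le
    have a3 : (D.obj y - D.obj x) * (κ * (r * ‖z - x‖)) <
        (D.obj y - D.obj x) * (Λ * (r * ‖z - x‖)) :=
      mul_lt_mul_of_pos_left (mul_lt_mul_of_pos_right hκ rzn) gy
    have a4 : r * (Λ * (D.obj y - D.obj x) * ‖z - x‖) ≤ r * ((D.obj z - D.obj x) * ‖y - x‖) :=
      mul_le_mul_of_nonneg_left h3 hr.le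
    linarith
  | longest p hp h =>
    obtain ⟨r, κ, hr, hκ, hp⟩ := hp
    have h5 := h z hz
    have py := (hp (y - x)).2
    have pz := (hp (z - x)).1
    have ryn : 0 < r * ‖y - x‖ := mul_pos hr ny
    have a3 : κ * (r * ‖y - x‖) < Λ * (r * ‖y - x‖) := mul_lt_mul_of_pos_right hκ ryn
    have a4 : r * (Λ * ‖y - x‖) ≤ r * ‖z - x‖ := mul_le_mul_of_nonneg_left h2 hr.le
    linarith
  | dantzig h =>
    obtain ⟨i, hi⟩ := hl y hy
    obtain ⟨i', hi'⟩ := hl z hz
    have h5 := h z i i' hz hi hi'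
    have h6 := (h4 i i' hi hi').2
    have h7 : 0 < D.redCost x y i := div_pos gy (sub_pos.2 hi.2)
    nlinarith
  | bland h =>
    obtain ⟨i, hi⟩ := hl y hy
    obtain ⟨i', hi'⟩ := hl z hz
    have h5 := h z i i' hz hi hi'
    exact absurd (h4 i i' hi hi').1 (not_lt.2 h5)
  | undominated h => exact h ⟨z, hz, h1, h2, h3, h4⟩

end LP

variable {k Λ : ℕ} {hΛ : 2 ≤ Λ}

theorem exists_improving {x : Fin (2 * k) → ℝ} {σ : ℕ → Fin 6} {i : ℕ} (hk : 1 ≤ k)
    (hx : AtV hΛ x σ) (hi : i < k) (hq : ps k σ i ≠ 3) :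
    ∃ y σ', AtV hΛ y σ' ∧ Flip k σ σ' i ∧ (prog k Λ).Improving x y ∧
      pos (ori k true σ i) (σ' i) = ps k σ i + 1 := by
  obtain ⟨u', hu, hp⟩ := exists_nb (o := ori k true σ i) (u := σ i) hq
  obtain ⟨y, hy⟩ := Coord.exists_at (crd k Λ hΛ) (par k Λ hΛ) (Function.update σ i u')
  have hf : Flip k σ (Function.update σ i u') i := by
    refine ⟨hi, by simpa using hu, fun l hl hli => Function.update_of_ne hli _ _⟩
  have hp' : pos (ori k true σ i) ((Function.update σ i u') i) = ps k σ i + 1 := by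
    simpa [ps] using hp
  exact ⟨y, _, hy, hf, (improving_iff hk hx hy hf).2 hp', hp'⟩

theorem D_lower {x : Fin (2 * k) → ℝ} {σ : ℕ → Fin 6} (hx : AtV hΛ x σ) {i : ℕ} (hi : i < k) :
    ((Λ : ℝ) ^ (2 * k)) ≤
      (par k Λ hΛ).H i - 2 * (crd k Λ hΛ).F x i - 2 * (par k Λ hΛ).τ i := by
  have h1 := (Coord.bound_at hx i hi.le).2
  have h2 : 4 * ta k Λ i ≤ Λ ^ (2 * k) := by
    unfold ta
    calc 4 * Λ ^ (2 * k - 2 - 2 * i) ≤ Λ ^ 2 * Λ ^ (2 * k - 2 - 2 * i) :=
          Nat.mul_le_mul_right _ (by nlinarith)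
      _ = Λ ^ (2 + (2 * k - 2 - 2 * i)) := by rw [pow_add]
      _ ≤ Λ ^ (2 * k) := Nat.pow_le_pow_right (by omega) (by omega)
  have h3 := pow_le_bb (k := k) (Λ := Λ) i
  have h4 : bb k Λ (i + 1) = 3 * bb k Λ i := by unfold bb; ring
  have h5 : Λ ^ (2 * k) + 2 * bb k Λ i + 2 * ta k Λ i ≤ bb k Λ (i + 1) := by omega
  have h6 : ((Λ : ℝ) ^ (2 * k)) + 2 * (bb k Λ i : ℕ) + 2 * (ta k Λ i : ℕ) ≤
      (bb k Λ (i + 1) : ℕ) := by exact_mod_cast h5
  have h7 : (par k Λ hΛ).H i = (bb k Λ (i + 1) : ℕ) := rfl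
  have h8 : (par k Λ hΛ).B i = (bb k Λ i : ℕ) := rfl
  have h9 : (par k Λ hΛ).τ i = (ta k Λ i : ℕ) := rfl
  rw [h7, h9]
  rw [h8] at h1
  linarith

theorem num_aux {θ T D : ℝ} (hθ : 0 < θ) (hT : 0 < T) (hD : 0 < D) (q : ℕ) :
    1 / (2 * θ) ≤ (if q = 1 then D else T) /
      (θ * (if q = 0 then 2 * T else if q = 1 then D else T)) := by
  have h1 : ∀ S : ℝ, 0 < S → 1 / (2 * θ) ≤ S / (θ * S) := by
    intro S hS
    have : S / (θ * S) = 1 / θ := by field_simp
    rw [this]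
    exact one_div_le_one_div_of_le hθ (by linarith)
  by_cases h0 : q = 0
  · subst h0
    simp only [zero_ne_one, if_false, if_true]
    apply le_of_eq; field_simp
  · by_cases h2 : q = 1
    · simp only [if_pos h2, if_neg h0]; exact h1 D hD
    · simp only [if_neg h2, if_neg h0]; exact h1 T hT

/-- Every gate that is entered too early is dominated. -/
theorem dominated {x y : Fin (2 * k) → ℝ} {σ σ' : ℕ → Fin 6} {i j : ℕ} (hk : 1 ≤ k)
    (hx : AtV hΛ x σ) (hy : AtV hΛ y σ') (h : Flip k σ σ' j)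
    (hp : pos (ori k true σ j) (σ' j) = ps k σ j + 1) (hq : ps k σ j = 0) (hij : i < j)
    (hi : ps k σ i ≠ 3) : ∃ z, (prog k Λ).Dominates (Λ : ℝ) x y z := by
  have hjk := h.1
  obtain ⟨z, σz, hz, hfz, himz, hpz⟩ := exists_improving hk hx (hij.trans hjk) hi
  refine ⟨z, himz, ?_⟩
  -- numerical facts
  have hΛ0 : (0 : ℝ) < Λ := by exact_mod_cast (by omega : 0 < Λ)
  set Ti : ℝ := ((ta k Λ i : ℕ) : ℝ) with hTi
  set Tj : ℝ := ((ta k Λ j : ℕ) : ℝ) with hTj
  set θi : ℝ := ((th Λ i : ℕ) : ℝ) with hθi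
  set θj : ℝ := ((th Λ j : ℕ) : ℝ) with hθj
  have pTi : 0 < Ti := Nat.cast_pos.2 (ta_pos hΛ i)
  have pTj : 0 < Tj := Nat.cast_pos.2 (ta_pos hΛ j)
  have pθi : 0 < θi := Nat.cast_pos.2 (th_pos hΛ i)
  have pθj : 0 < θj := Nat.cast_pos.2 (th_pos hΛ j)
  have oθi : 1 ≤ θi := Nat.one_le_cast.2 (th_pos hΛ i)
  have oθj : 1 ≤ θj := Nat.one_le_cast.2 (th_pos hΛ j)
  have fa : (Λ : ℝ) * Tj ≤ Ti := by
    have : Λ * ta k Λ j ≤ ta k Λ i := by
      unfold ta
      rw [← pow_succ']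
      exact Nat.pow_le_pow_right (by omega) (by omega)
    rw [hTi, hTj]; exact_mod_cast this
  have fd : (Λ : ℝ) * θi ≤ θj := by
    have : Λ * th Λ i ≤ th Λ j := by
      unfold th
      rw [← pow_succ']
      exact Nat.pow_le_pow_right (by omega) (by omega)
    rw [hθi, hθj]; exact_mod_cast this
  have fc : (Λ : ℝ) * (θj * Tj) ≤ θi * Ti := by
    have : Λ * (th Λ j * ta k Λ j) ≤ th Λ i * ta k Λ i := by
      rw [← th_ta hjk, ← th_ta (hij.trans hjk)]
      unfold ss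
      rw [← pow_succ']
      exact Nat.pow_le_pow_right (by omega) (by omega)
    rw [hTi, hTj, hθi, hθj]; exact_mod_cast this
  have fb : (Λ : ℝ) * (θj * Tj) ≤ (Λ : ℝ) ^ (2 * k) := by
    have : Λ * (th Λ j * ta k Λ j) ≤ Λ ^ (2 * k) := by
      rw [← th_ta hjk]
      unfold ss
      rw [← pow_succ']
      exact Nat.pow_le_pow_right (by omega) (by omega)
    rw [hTj, hθj]; exact_mod_cast this
  have hDi := D_lower hx (hij.trans hjk)
  set Di : ℝ := (par k Λ hΛ).H i - 2 * (crd k Λ hΛ).F x i - 2 * (par k Λ hΛ).τ i with hDidef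
  have pDi : 0 < Di := lt_of_lt_of_le (by positivity) hDi
  -- data of the two steps
  have e1 : (prog k Λ).obj y - (prog k Λ).obj x = Tj := by
    rw [gain_eq hk hx hy h hp, hq]; simp [stv, par, hTj]
  have e2 : ‖y - x‖ = θj * Tj := by
    rw [norm_eq hx hy h hp, hq]; simp [par, hTj, hθj]
  have e3 : (prog k Λ).obj z - (prog k Λ).obj x = if ps k σ i = 1 then Di else Ti := by
    rw [gain_eq hk hx hz hfz hpz]; rfl
  have e4 : ‖z - x‖ = if ps k σ i = 1 then Di else θi * Ti := by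
    rw [norm_eq hx hz hfz hpz]; rfl
  rw [e1, e2, e3, e4]
  have hTle : Tj ≤ θj * Tj := by nlinarith
  have hΛT : (Λ : ℝ) * Tj ≤ Λ * (θj * Tj) := mul_le_mul_of_nonneg_left hTle hΛ0.le
  have hsl : Tj / (θj * Tj) = 1 / θj := by field_simp
  have hΛθ : (Λ : ℝ) ≤ θj := by nlinarith
  refine ⟨?_, ?_, ?_, ?_⟩
  · split_ifs
    · linarith
    · exact fa
  · split_ifs
    · linarith
    · exact fc
  · rw [hsl]
    split_ifs
    · rw [div_self pDi.ne', mul_one_div, div_le_one pθj]; exact hΛθ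
    · have : Ti / (θi * Ti) = 1 / θi := by field_simp
      rw [this, mul_one_div, div_le_div_iff₀ pθj pθi]; linarith
  · intro r r' hr hr'
    have hs := leave_slack hx hy h hp hr
    have hs' := leave_slack hx hz hfz hpz hr'
    rw [leaves_iff hx hy h] at hr
    rw [leaves_iff hx hz hfz] at hr'
    constructor
    · rw [hr, hr']
      simp only [rix, Fin.lt_def]
      have := (lv (σ i) (σz i)).2
      omega
    · unfold LP.redCost
      rw [e1, e3, hs, hs', hq]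
      have e5 : (θj : ℝ) * stl 0 ((par k Λ hΛ).τ j) ((par k Λ hΛ).H j) ((crd k Λ hΛ).F x j) =
          θj * (2 * Tj) := by simp [stl, par, hTj]
      rw [e5]
      have e6 : Tj / (θj * (2 * Tj)) = 1 / (2 * θj) := by field_simp
      rw [e6]
      have e7 : 1 / (2 * θi) ≤ (if ps k σ i = 1 then Di else Ti) /
          (θi * stl (ps k σ i) ((par k Λ hΛ).τ i) ((par k Λ hΛ).H i) ((crd k Λ hΛ).F x i)) := by
        have e8 : stl (ps k σ i) ((par k Λ hΛ).τ i) ((par k Λ hΛ).H i) ((crd k Λ hΛ).F x i) =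
            if ps k σ i = 0 then 2 * Ti else if ps k σ i = 1 then Di else Ti := rfl
        rw [e8]
        exact num_aux pθi pTi pDi _
      refine le_trans ?_ e7
      rw [mul_one_div, div_le_div_iff₀ (by positivity) (by positivity)]
      linarith

theorem Dest_false_F {x : Fin (2 * k) → ℝ} {σ : ℕ → Fin 6} (hx : AtV hΛ x σ) :
    ∀ j ≤ k, Dest j false σ → (crd k Λ hΛ).F x j = 0 := by
  intro j
  induction j with
  | zero => intro _ _; exact Coord.F_zero _ _
  | succ j ih =>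
    intro hj hd
    have h0 : σ j = 0 := by
      have := hd.1
      revert this
      generalize σ j = u
      revert u; decide
    rw [(hx j hj).2, h0]
    simp only [bv]
    exact ih (by omega) hd.2

theorem optimal_of_dest {x : Fin (2 * k) → ℝ} {σ : ℕ → Fin 6} (hk : 1 ≤ k) (hx : AtV hΛ x σ)
    (hd : Dest k true σ) : (prog k Λ).Optimal x := by
  obtain ⟨k', rfl⟩ : ∃ k', k = k' + 1 := ⟨k - 1, by omega⟩
  refine ⟨by rw [feasible_eq hΛ]; exact Coord.At.mem hx, fun y hy => ?_⟩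
  rw [obj_eq (hΛ := hΛ) hk, obj_eq (hΛ := hΛ) hk]
  have h0 : σ k' = 3 := by
    have := hd.1
    revert this
    generalize σ k' = u
    revert u; decide
  have h1 := (hx k' (Nat.lt_succ_self _)).2
  rw [h0] at h1
  simp only [bv] at h1
  rw [Dest_false_F hx k' (Nat.le_succ _) hd.2] at h1
  rw [feasible_eq hΛ] at hy
  have h2 := (Coord.mem_poly _ _).1 hy k' (Nat.lt_succ_self _)
  have h3 := h2 2
  have h4 := h2 3
  have h5 := (Coord.bound hy k' (Nat.le_succ _)).1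
  simp only [sl6] at h3 h4
  linarith

theorem dest_of_optimal {x : Fin (2 * k) → ℝ} {σ : ℕ → Fin 6} (hk : 1 ≤ k) (hx : AtV hΛ x σ)
    (ho : (prog k Λ).Optimal x) : Dest k true σ := by
  rw [dest_iff]
  intro i hi
  by_contra hne
  obtain ⟨y, σ', hy, _, him, _⟩ := exists_improving hk hx hi hne
  have h1 := ho.2 y him.1.2.1.1
  linarith [him.2]

theorem leaves_unique (hΛ : 2 ≤ Λ) {x y : Fin (2 * k) → ℝ} (h : (prog k Λ).Edge x y) :
    ∃! i, (prog k Λ).Leaves x y i := by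
  obtain ⟨σ, hx⟩ := (vertex_iff (hΛ := hΛ)).1 h.1
  obtain ⟨σ', i, hy, hf⟩ := flip_of_edge hx h
  exact ⟨rix i hf.1 (lv (σ i) (σ' i)), (leaves_iff hx hy hf _).2 rfl,
    fun r hr => (leaves_iff hx hy hf _).1 hr⟩

/-- At every non-optimal vertex there is an undominated pivot. -/
theorem exists_undominated (hΛ : 2 ≤ Λ) (hk : 1 ≤ k) {x : Fin (2 * k) → ℝ}
    (hx : (prog k Λ).Vertex x) (ho : ¬ (prog k Λ).Optimal x) :
    ∃ y, (prog k Λ).Improving x y ∧ ¬ ∃ z, (prog k Λ).Dominates (Λ : ℝ) x y z := by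
  obtain ⟨σ, hx⟩ := (vertex_iff (hΛ := hΛ)).1 hx
  have hex : ∃ i, i < k ∧ ps k σ i ≠ 3 := by
    by_contra hno
    push Not at hno
    exact ho (optimal_of_dest hk hx (dest_iff.2 hno))
  classical
  let i := Nat.find hex
  obtain ⟨hi, hne⟩ : i < k ∧ ps k σ i ≠ 3 := Nat.find_spec hex
  have hlow : ∀ l < i, ps k σ l = 3 := by
    intro l hl
    by_contra h
    exact Nat.find_min hex hl ⟨hl.trans hi, h⟩
  obtain ⟨y, σ', hy, hf, him, hp⟩ := exists_improving hk hx hi hne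
  refine ⟨y, him, ?_⟩
  rintro ⟨z, hz, h1, _, _, h4⟩
  obtain ⟨σz, j, hzz, hfz⟩ := flip_of_edge hx hz.1
  have hpz := (improving_iff hk hx hzz hfz).1 hz
  have hrow := (h4 _ _ ((leaves_iff hx hy hf _).2 rfl) ((leaves_iff hx hzz hfz _).2 rfl)).1
  simp only [rix, Fin.lt_def] at hrow
  have b1 := (lv (σ i) (σ' i)).2
  have b2 := (lv (σ j) (σz j)).2
  rcases lt_trichotomy j i with h | h | h
  · have := hlow j h
    have h5 := pos_le (ori k true σ j) (σz j)
    omega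
  · subst h
    rw [gain_eq hk hx hy hf hp, ← gain_eq hk hx hzz hfz hpz] at h1
    have h6 : 0 < (prog k Λ).obj z - (prog k Λ).obj x := sub_pos.2 hz.2
    have h7 : (2 : ℝ) ≤ Λ := by exact_mod_cast hΛ
    nlinarith
  · omega

/-- The lower bound. -/
theorem long_path (hΛ : 2 ≤ Λ) (hk : 1 ≤ k) {v : ℕ → Fin (2 * k) → ℝ} {N : ℕ}
    (h0 : AtV hΛ (v 0) fun _ => 0)
    (hstep : ∀ t < N, (prog k Λ).Improving (v t) (v (t + 1)) ∧
      ¬ ∃ z, (prog k Λ).Dominates (Λ : ℝ) (v t) (v (t + 1)) z)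
    (hN : (prog k Λ).Optimal (v N)) : 3 * (2 ^ k - 1) ≤ N := by
  have key : ∀ t ≤ N, ∃ σ, AtV hΛ (v t) σ ∧ Inv k true σ ∧ Mk k ≤ Pot k true σ + t := by
    intro t
    induction t with
    | zero =>
      intro _
      exact ⟨_, h0, (start k).1, by rw [(start k).2]; omega⟩
    | succ t ih =>
      intro ht
      obtain ⟨σ, hσ, hI, hP⟩ := ih (by omega)
      obtain ⟨him, hund⟩ := hstep t (by omega)
      obtain ⟨σ', i, hσ', hf⟩ := flip_of_edge hσ him.1
      have hp := (improving_iff hk hσ hσ' hf).1 him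
      have hg : pos (ori k true σ i) (σ i) = 0 → Dest i true σ := by
        intro hq
        rw [dest_iff]
        intro j hj
        by_contra hne
        refine hund (dominated hk hσ hσ' hf hp hq hj ?_)
        unfold ps
        rw [ori_low hj hf.1, low_true (by omega)]
        exact hne
      obtain ⟨a1, a2⟩ := step hf.1 hf.2.2 hI hp hg
      exact ⟨σ', hσ', a1, by omega⟩
  obtain ⟨σ, hσ, _, hP⟩ := key N le_rfl
  have := (dest_of_optimal hk hσ hN).pot
  rw [← Mk_eq]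
  omega

end Pool.Agent.Simplex
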