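import Mathlib

/-!
Linear programs in the form of the problem file (maximise `c x` subject to `A x ≤ b`, `x ≥ 0`,
integer data), their vertices and edges, and the quantities that pivot rules look at.
-/

namespace Pool.Agent.Simplex

/-- Data of a linear program: maximise `c x` subject to `A x ≤ b`, `x ≥ 0`, with integer
`A`, `b`, `c`. -/
structure LP (m n : ℕ) where
  /-- the constraint matrix -/
  A : Fin m → Fin n → ℤ
  /-- the right hand side -/
  b : Fin m → ℤ
  /-- the objective -/
  c : Fin n → ℤ

namespace LP

variable {m n : ℕ} (D : LP m n)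

/-- Total bit length of the data. -/
def bits : ℕ :=
  (∑ i, ∑ j, ((D.A i j).natAbs.size + 1)) + (∑ i, ((D.b i).natAbs.size + 1)) +
    ∑ j, ((D.c j).natAbs.size + 1)

/-- Left hand side of the `i`-th constraint at `x`. -/
def row (i : Fin m) (x : Fin n → ℝ) : ℝ := ∑ j, (D.A i j : ℝ) * x j

/-- The feasible polyhedron `{x | A x ≤ b, x ≥ 0}`. -/
def feasible : Set (Fin n → ℝ) := {x | (∀ i, D.row i x ≤ D.b i) ∧ ∀ j, 0 ≤ x j}

/-- The objective function. -/
def obj (x : Fin n → ℝ) : ℝ := ∑ j, (D.c j : ℝ) * x j

/-- `x` is a vertex (extreme point) of the feasible polyhedron. -/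
def Vertex (x : Fin n → ℝ) : Prop := x ∈ Set.extremePoints ℝ D.feasible

/-- `x` and `y` are the two ends of an edge of the feasible polyhedron. -/
def Edge (x y : Fin n → ℝ) : Prop :=
  D.Vertex x ∧ D.Vertex y ∧ x ≠ y ∧ IsExtreme ℝ D.feasible (segment ℝ x y)

/-- The edge from `x` to `y` strictly increases the objective: `x → y` is a simplex pivot. -/
def Improving (x y : Fin n → ℝ) : Prop := D.Edge x y ∧ D.obj x < D.obj y

/-- `x` is an optimal feasible point. -/
def Optimal (x : Fin n → ℝ) : Prop := x ∈ D.feasible ∧ ∀ y ∈ D.feasible, D.obj y ≤ D.obj x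

/-- Moving from `x` to `y` makes the constraint `i`, tight at `x`, slack: in simplex language,
the slack variable of row `i` enters the basis. -/
def Leaves (x y : Fin n → ℝ) (i : Fin m) : Prop := D.row i x = D.b i ∧ D.row i y < D.b i

/-- Reduced cost of the slack variable of row `i` for the pivot from `x` to `y`: increase of
the objective per unit of increase of that slack variable. -/
noncomputable def redCost (x y : Fin n → ℝ) (i : Fin m) : ℝ :=
  (D.obj y - D.obj x) / (D.b i - D.row i y)

/-- The pivot `x → z` beats the pivot `x → y` in every classical respect at once: its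
improvement, its length, its slope and its reduced cost are all at least `Λ` times as large,
and it also has the smaller index. -/
def Dominates (Λ : ℝ) (x y z : Fin n → ℝ) : Prop :=
  D.Improving x z ∧
  Λ * (D.obj y - D.obj x) ≤ D.obj z - D.obj x ∧
  Λ * ‖y - x‖ ≤ ‖z - x‖ ∧
  Λ * ((D.obj y - D.obj x) / ‖y - x‖) ≤ (D.obj z - D.obj x) / ‖z - x‖ ∧
  ∀ i i', D.Leaves x y i → D.Leaves x z i' →
    i' < i ∧ Λ * D.redCost x y i ≤ D.redCost x z i'

/-- A way `p` of measuring the length of edge vectors that agrees, up to a factor less than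
`Λ` and a change of unit, with the maximum norm. -/
def Gauge (Λ : ℝ) (p : (Fin n → ℝ) → ℝ) : Prop :=
  ∃ r κ : ℝ, 0 < r ∧ κ < Λ ∧ ∀ u, r * ‖u‖ ≤ p u ∧ p u ≤ κ * (r * ‖u‖)

/-- The pivot `x → y` is *reasonable*: it is the greatest improvement, or the steepest or the
longest edge with respect to some `Λ`-gauge, or Dantzig's choice (largest reduced cost), or
Bland's choice (smallest index), or at least it is not dominated by another pivot. -/
inductive Reasonable (Λ : ℝ) (x y : Fin n → ℝ) : Prop
  | greatest : (∀ z, D.Improving x z → D.obj z ≤ D.obj y) → Reasonable Λ x y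
  | steepest (p : (Fin n → ℝ) → ℝ) : Gauge Λ p →
      (∀ z, D.Improving x z → (D.obj z - D.obj x) / p (z - x) ≤
        (D.obj y - D.obj x) / p (y - x)) → Reasonable Λ x y
  | longest (p : (Fin n → ℝ) → ℝ) : Gauge Λ p →
      (∀ z, D.Improving x z → p (z - x) ≤ p (y - x)) → Reasonable Λ x y
  | dantzig : (∀ z i i', D.Improving x z → D.Leaves x y i → D.Leaves x z i' →
      D.redCost x z i' ≤ D.redCost x y i) → Reasonable Λ x y
  | bland : (∀ z i i', D.Improving x z → D.Leaves x y i → D.Leaves x z i' → i ≤ i') →
      Reasonable Λ x y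
  | undominated : (¬ ∃ z, D.Dominates Λ x y z) → Reasonable Λ x y

end LP

end Pool.Agent.Simplex
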