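import Mathlib
import Pool.Agent.Lib.MP_4d246d_lc.CI.Cases

/-!
# The shadow vertex rule with a random auxiliary objective: a bound by the tableau entries

Let `max c x`, `A x ≤ b` be a linear program with real data, `m` inequalities (bounds `x ≥ 0` are
among them) and `n` variables, and let `v₀` be a vertex. Pivots are edges along which the objective
strictly increases.

* Let `K` be an upper bound of the absolute values of the entries of all feasible tableaux, where the
  slack of each constraint `l` may be measured in a unit `1 / wt l` of its own. Then at most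
  `B = 220 n² min(n, m + 1 - n)² K² size(K)` pivots suffice to reach from `v₀` an optimal vertex or a
  vertex with an unbounded improving edge. Moreover the shadow vertex rule whose auxiliary objective
  is a combination of any `n` independent (weighted) constraints tight at `v₀` with coefficients
  chosen uniformly and independently in `[0, 1]` finds such a sequence: almost surely all its pivots
  are determined and the run ends as required, and the mean number of pivots is at most `B`.
* Such a `K` is given, with all weights `1`, by the largest ratio of the absolute values of two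
  non-zero `n × n` subdeterminants of `A` (so `K = 1` for totally unimodular `A`), and by `2` if each
  row of `A` has at most two non-zero entries, all equal to `1` or `-1`; with other weights, by
  `1 / δ` if the program has the local `δ`-distance property.
-/

namespace Pool.Agent.Results.MP_4d246d_lc.MonotonePaths

open Pool.Agent.Simplex.Tableau MeasureTheory

theorem result {m n : ℕ} (P : LP m n) :
    (∀ (wt : Fin m → ℝ) (K : ℕ), (∀ l, 0 < wt l) → P.TableauLE wt K → ∀ v₀, P.Vertex v₀ →
      (∃ (N : ℕ) (p : ℕ → Fin n → ℝ), N ≤ pivotBound m n K ∧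
        p 0 = v₀ ∧ (∀ i < N, P.Improving (p i) (p (i + 1))) ∧ P.Final (p N)) ∧
      (∃ r, P.TightBasis v₀ r) ∧
      ∀ r, P.TightBasis v₀ r → ∃ N : (Fin n → ℝ) → ℕ, Measurable N ∧
        ∫⁻ κ in Set.Icc (0 : Fin n → ℝ) 1, (N κ : ENNReal) ≤ (pivotBound m n K : ℕ) ∧
        ∀ᵐ κ, κ ∈ Set.Icc (0 : Fin n → ℝ) 1 →
          ∃ (k : ℕ) (p : ℕ → Fin n → ℝ), k ≤ N κ ∧ p 0 = v₀ ∧
            P.ShadowRun (P.auxiliary wt r κ) k p ∧ P.Final (p k) ∧
            ∀ k' p', p' 0 = v₀ → P.ShadowRun (P.auxiliary wt r κ) k' p' →
              k' ≤ k ∧ ∀ i ≤ k', p' i = p i) ∧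
    (∀ K : ℕ, MinorRatioLE P.A K → P.TableauLE (fun _ => 1) K) ∧
    (TwoUnit P.A → P.TableauLE (fun _ => 1) 2) ∧
    ∀ (δ : ℝ) (K : ℕ), 0 < δ → P.DistanceGE δ → 1 ≤ K * δ →
      ∃ wt : Fin m → ℝ, (∀ l, 0 < wt l) ∧ P.TableauLE wt K :=
  ⟨fun _ _ hw hK _ hv => ⟨P.short_path hw hK hv, P.exists_tight hv,
      fun _ hr => P.random_all hw hK hv hr⟩,
    fun _ h => tableau_of_minors P h, fun h => tableau_of_twoUnit P h,
    fun _ _ hδ h hK => tableau_of_distance P hδ h hK⟩

end Pool.Agent.Results.MP_4d246d_lc.MonotonePaths
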