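import Mathlib

/-! General facts on polyhedra given by finitely many slack functions. -/

namespace Pool.Agent.Simplex

open Topology Filter Set

/-- A finite family of affine functions `sl i` with linear parts `ln i`. -/
structure SlackSys (ι E : Type*) [AddCommGroup E] [Module ℝ E] where
  sl : ι → E → ℝ
  ln : ι → E →ₗ[ℝ] ℝ
  add : ∀ i x q, sl i (x + q) = sl i x + ln i q

namespace SlackSys

variable {ι E : Type*} [AddCommGroup E] [Module ℝ E] (S : SlackSys ι E)

/-- the polyhedron -/
def P : Set E := {x | ∀ i, 0 ≤ S.sl i x}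

theorem sub_eq (i : ι) (x y : E) : S.ln i (y - x) = S.sl i y - S.sl i x := by
  have := S.add i x (y - x)
  rw [add_sub_cancel] at this
  linarith

theorem combo (i : ι) {a b : ℝ} (hab : a + b = 1) (x y : E) :
    S.sl i (a • x + b • y) = a * S.sl i x + b * S.sl i y := by
  have h1 : a • x + b • y = x + b • (y - x) := by
    have : a = 1 - b := by linarith
    subst this
    rw [sub_smul, smul_sub, one_smul]; abel
  have ha : a = 1 - b := by linarith
  rw [h1, S.add, map_smul, S.sub_eq, smul_eq_mul, ha]; ring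

theorem perturb [Finite ι] {x q : E} (hx : x ∈ S.P) (hq : ∀ i, S.sl i x = 0 → S.ln i q = 0) :
    ∃ ε : ℝ, 0 < ε ∧ x + ε • q ∈ S.P ∧ x + (-ε) • q ∈ S.P := by
  have h1 : ∀ᶠ t : ℝ in 𝓝 0, ∀ i, 0 ≤ S.sl i (x + t • q) := by
    rw [eventually_all]
    intro i
    by_cases h : S.sl i x = 0
    · refine Eventually.of_forall fun t => ?_
      rw [S.add, map_smul, hq i h, h]; simp
    · have hpos : 0 < S.sl i x := lt_of_le_of_ne (hx i) (Ne.symm h)
      have hc : ContinuousAt (fun t : ℝ => S.sl i x + t * S.ln i q) 0 := by fun_prop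
      have : ∀ᶠ t : ℝ in 𝓝 0, 0 < S.sl i x + t * S.ln i q := by
        apply hc.eventually (p := fun y => 0 < y)
        apply lt_mem_nhds
        simpa using hpos
      filter_upwards [this] with t ht
      rw [S.add, map_smul, smul_eq_mul]
      exact ht.le
  rw [Metric.eventually_nhds_iff] at h1
  obtain ⟨δ, hδ, h⟩ := h1
  refine ⟨δ / 2, by positivity, fun i => h ?_ i, fun i => h ?_ i⟩
  · rw [Real.dist_eq, sub_zero, abs_of_pos (by positivity)]; linarith
  · rw [Real.dist_eq, sub_zero, abs_neg, abs_of_pos (by positivity)]; linarith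

/-- A direction orthogonal to all constraints tight at an extreme point vanishes. -/
theorem dir_zero_of_extreme [Finite ι] {x q : E} (hx : x ∈ S.P.extremePoints ℝ)
    (hq : ∀ i, S.sl i x = 0 → S.ln i q = 0) : q = 0 := by
  obtain ⟨ε, hε, h1, h2⟩ := S.perturb hx.1 hq
  have := hx.2 h1 h2 ⟨1/2, 1/2, by norm_num, by norm_num, by norm_num, by module⟩
  have h3 : ε • q = 0 := by
    have := congrArg (fun z => z - x) this
    simpa using this
  exact (smul_eq_zero.1 h3).resolve_left hε.ne'

/-- A direction orthogonal to all constraints tight at the midpoint of an edge is parallel to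
the edge. -/
theorem dir_of_edge [Finite ι] {x y q : E} (hS : IsExtreme ℝ S.P (segment ℝ x y))
    (hq : ∀ i, S.sl i x = 0 → S.sl i y = 0 → S.ln i q = 0) : ∃ c : ℝ, q = c • (y - x) := by
  set w : E := (1/2 : ℝ) • x + (1/2 : ℝ) • y with hw
  have hws : w ∈ segment ℝ x y := ⟨1/2, 1/2, by norm_num, by norm_num, by norm_num, rfl⟩
  have hxP : x ∈ S.P := hS.1 (left_mem_segment ℝ x y)
  have hyP : y ∈ S.P := hS.1 (right_mem_segment ℝ x y)
  have hwP : w ∈ S.P := hS.1 hws
  have hq' : ∀ i, S.sl i w = 0 → S.ln i q = 0 := by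
    intro i hi
    rw [hw, S.combo i (by norm_num)] at hi
    have h1 := hxP i
    have h2 := hyP i
    exact hq i (by linarith) (by linarith)
  obtain ⟨ε, hε, h1, h2⟩ := S.perturb hwP hq'
  have h3 := hS.2 h1 h2 hws ⟨1/2, 1/2, by norm_num, by norm_num, by norm_num, by module⟩
  obtain ⟨a, b, ha, hb, hab, h⟩ := h3
  have ha' : a = 1 - b := by linarith
  refine ⟨(b - 1/2) / ε, ?_⟩
  have h4 : ε • q = (b - 1/2) • (y - x) := by
    have : ε • q = (w + ε • q) - w := by abel
    rw [this, ← h, hw, ha']; module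
  rw [div_eq_inv_mul, mul_smul, ← h4, smul_smul, inv_mul_cancel₀ hε.ne', one_smul]

/-- The face cut out by a set of tight constraints is extreme. -/
theorem face_extreme (T : Set ι) : IsExtreme ℝ S.P {x | x ∈ S.P ∧ ∀ i ∈ T, S.sl i x = 0} := by
  refine ⟨fun x hx => hx.1, ?_⟩
  rintro x hx y hy z hz ⟨a, b, ha, hb, hab, rfl⟩
  refine ⟨hx, fun i hi => ?_⟩
  have h := hz.2 i hi
  rw [S.combo i hab] at h
  have h1 := hx i
  have h2 := hy i
  nlinarith [mul_nonneg ha.le h1, mul_nonneg hb.le h2]

/-- A point whose tight constraints are independent enough is an extreme point. -/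
theorem extreme_of_unique {x : E} (T : Set ι) (hx : x ∈ S.P) (hT : ∀ i ∈ T, S.sl i x = 0)
    (hu : ∀ y ∈ S.P, (∀ i ∈ T, S.sl i y = 0) → y = x) : x ∈ S.P.extremePoints ℝ := by
  refine ⟨hx, ?_⟩
  intro y hy z hz h
  exact hu y hy ((S.face_extreme T).2 hy hz ⟨hx, hT⟩ h).2

end SlackSys

end Pool.Agent.Simplex
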