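import Pool.Agent.Lib.MP_4d246d_lc.Build

/-! Properties of the concrete linear program. -/

namespace Pool.Agent.Simplex

open Set

/-- index of row `e` of level `l` -/
def rix {k : ℕ} (l : ℕ) (hl : l < k) (e : Fin 6) : Fin (6 * k) := ⟨6 * l + e, by omega⟩

theorem rix_div {k l : ℕ} (hl : l < k) (e : Fin 6) : ((rix l hl e : Fin (6 * k)) : ℕ) / 6 = l := by
  simp only [rix]; omega

theorem rix_mod {k l : ℕ} (hl : l < k) (e : Fin 6) :
    Fin.ofNat 6 ((rix l hl e : Fin (6 * k)) : ℕ) = e := by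
  ext; simp only [rix, Fin.ofNat]; omega

variable {k Λ : ℕ} {hΛ : 2 ≤ Λ}

theorem slack_rix (x : Fin (2 * k) → ℝ) {l : ℕ} (hl : l < k) (e : Fin 6) :
    ((prog k Λ).b (rix l hl e) : ℝ) - (prog k Λ).row (rix l hl e) x = (th Λ l : ℕ) *
      sl6 e ((par k Λ hΛ).τ l) ((par k Λ hΛ).H l) ((crd k Λ hΛ).G x l) ((crd k Λ hΛ).F x l)
        ((crd k Λ hΛ).F x (l + 1)) :=
  slack_eq x _ (rix_div hl e) (rix_mod hl e)

theorem abs_G_le {x : Fin (2 * k) → ℝ} (hx : x ∈ (crd k Λ hΛ).poly (par k Λ hΛ)) {l : ℕ}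
    (hl : l < k) : |xe x (2 * l) - ((ss k Λ l : ℕ) + 1)| ≤ (ss k Λ l : ℕ) := by
  have h := (Coord.mem_poly _ _).1 hx l hl
  have h1 := h 1
  have h4 := h 4
  simp only [sl6] at h1 h4
  rw [← crd_G (hΛ := hΛ) x hl, abs_mul, Nat.abs_cast, th_ta_real hl]
  refine mul_le_mul_of_nonneg_left ?_ (Nat.cast_nonneg _)
  rw [abs_le]
  have : (par k Λ hΛ).τ l = (ta k Λ l : ℕ) := rfl
  constructor <;> linarith

theorem pos_of_mem {x : Fin (2 * k) → ℝ} (hx : x ∈ (crd k Λ hΛ).poly (par k Λ hΛ))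
    (j : Fin (2 * k)) : 1 ≤ x j := by
  have hl : (j : ℕ) / 2 < k := by omega
  rw [← xe_fin x j]
  rcases Nat.mod_two_eq_zero_or_one (j : ℕ) with h | h
  · have hj : (j : ℕ) = 2 * ((j : ℕ) / 2) := by omega
    have := abs_G_le hx hl
    rw [← hj, abs_le] at this
    linarith
  · have hj : (j : ℕ) = 2 * ((j : ℕ) / 2) + 1 := by omega
    have h1 := crd_F (hΛ := hΛ) x hl
    have h2 := (Coord.bound hx ((j : ℕ) / 2 + 1) hl).1
    rw [h1, ← hj] at h2
    linarith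

theorem feasible_eq (hΛ : 2 ≤ Λ) :
    (prog k Λ).feasible = (crd k Λ hΛ).poly (par k Λ hΛ) := by
  ext x
  constructor
  · rintro ⟨h1, _⟩
    rw [Coord.mem_poly]
    intro l hl e
    have h2 := slack_rix (hΛ := hΛ) x hl e
    have h3 := h1 (rix l hl e)
    have h4 : (0 : ℝ) < (th Λ l : ℕ) := by exact_mod_cast th_pos hΛ l
    by_contra hneg
    push Not at hneg
    have := mul_neg_of_pos_of_neg h4 hneg
    linarith
  · intro hx
    refine ⟨fun i => ?_, fun j => by linarith [pos_of_mem hx j]⟩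
    have h2 := slack_eq (hΛ := hΛ) x i rfl rfl
    have h3 := (Coord.mem_poly _ _).1 hx ((i : ℕ) / 6) (by omega) (Fin.ofNat 6 i)
    have h4 : (0 : ℝ) ≤ (th Λ ((i : ℕ) / 6) : ℕ) := Nat.cast_nonneg _
    have := mul_nonneg h4 h3
    linarith

theorem obj_eq (hk : 1 ≤ k) (x : Fin (2 * k) → ℝ) :
    (prog k Λ).obj x = (crd k Λ hΛ).F x k + 1 := by
  obtain ⟨k', rfl⟩ : ∃ k', k = k' + 1 := ⟨k - 1, by omega⟩
  rw [crd_F x (Nat.lt_succ_self k')]
  have h1 : ∀ j : Fin (2 * (k' + 1)), (((prog (k' + 1) Λ).c j : ℤ) : ℝ) * x j =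
      (fun n : ℕ => if n = 2 * k' + 1 then xe x (2 * k' + 1) else 0) (j : ℕ) := by
    intro j
    rw [← xe_fin x j]
    simp only [prog]
    generalize (j : ℕ) = n
    by_cases h : n = 2 * k' + 1
    · subst h
      rw [if_pos rfl, if_pos (by omega)]; simp
    · rw [if_neg h, if_neg (by omega)]; simp
  unfold LP.obj
  rw [Finset.sum_congr rfl fun j _ => h1 j, Fin.sum_univ_eq_sum_range
    (fun n : ℕ => if n = 2 * k' + 1 then xe x (2 * k' + 1) else 0) (2 * (k' + 1)),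
    Finset.sum_ite_eq', if_pos (Finset.mem_range.2 (by omega))]
  ring

theorem feasible_bounded (hΛ : 2 ≤ Λ) : Bornology.IsBounded (prog k Λ).feasible := by
  rw [feasible_eq hΛ]
  refine (Metric.isBounded_Icc (fun _ : Fin (2 * k) => (0 : ℝ)) (fun j : Fin (2 * k) =>
    2 * ((ss k Λ ((j : ℕ) / 2) : ℕ) : ℝ) + 1 + ((bb k Λ ((j : ℕ) / 2 + 1) : ℕ) : ℝ) + 1)).subset ?_
  intro x hx
  refine ⟨fun j => by linarith [pos_of_mem hx j], fun j => ?_⟩
  have hl : (j : ℕ) / 2 < k := by omega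
  have e1 : (0 : ℝ) ≤ (ss k Λ ((j : ℕ) / 2) : ℕ) := Nat.cast_nonneg _
  have e2 : (0 : ℝ) ≤ (bb k Λ ((j : ℕ) / 2 + 1) : ℕ) := Nat.cast_nonneg _
  rw [← xe_fin x j]
  rcases Nat.mod_two_eq_zero_or_one (j : ℕ) with h | h
  · have hj : (j : ℕ) = 2 * ((j : ℕ) / 2) := by omega
    have := abs_G_le hx hl
    rw [← hj, abs_le] at this
    linarith
  · have hj : (j : ℕ) = 2 * ((j : ℕ) / 2) + 1 := by omega
    have h1 := crd_F (hΛ := hΛ) x hl
    have h2 := (Coord.bound hx ((j : ℕ) / 2 + 1) hl).2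
    rw [h1, ← hj] at h2
    have : (par k Λ hΛ).B ((j : ℕ) / 2 + 1) = (bb k Λ ((j : ℕ) / 2 + 1) : ℕ) := rfl
    linarith

/-- shorthand: `x` is the vertex with types `σ` -/
def AtV (hΛ : 2 ≤ Λ) (x : Fin (2 * k) → ℝ) (σ : ℕ → Fin 6) : Prop :=
  (crd k Λ hΛ).At (par k Λ hΛ) x σ

theorem vertex_iff {x : Fin (2 * k) → ℝ} : (prog k Λ).Vertex x ↔ ∃ σ, AtV hΛ x σ := by
  unfold LP.Vertex
  rw [feasible_eq hΛ]
  exact ⟨fun h => Coord.exists_types h, fun ⟨σ, h⟩ => h.extreme⟩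

theorem edge_of_flip {x y : Fin (2 * k) → ℝ} {σ σ' : ℕ → Fin 6} {i : ℕ} (hx : AtV hΛ x σ)
    (hy : AtV hΛ y σ') (h : Flip k σ σ' i) : (prog k Λ).Edge x y := by
  obtain ⟨h1, h2⟩ := Coord.flip_edge hx hy h
  refine ⟨vertex_iff.2 ⟨σ, hx⟩, vertex_iff.2 ⟨σ', hy⟩, h1, ?_⟩
  rw [feasible_eq hΛ]; exact h2

theorem flip_of_edge {x y : Fin (2 * k) → ℝ} {σ : ℕ → Fin 6} (hx : AtV hΛ x σ)
    (h : (prog k Λ).Edge x y) : ∃ σ' i, AtV hΛ y σ' ∧ Flip k σ σ' i := by
  obtain ⟨_, h2, h3, h4⟩ := h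
  rw [feasible_eq hΛ] at h4
  unfold LP.Vertex at h2
  rw [feasible_eq hΛ] at h2
  exact Coord.edge_flip' hx h2 h3 h4

/-- position at level `i` -/
def ps (k : ℕ) (σ : ℕ → Fin 6) (i : ℕ) : ℕ := pos (ori k true σ i) (σ i)

theorem improving_iff {x y : Fin (2 * k) → ℝ} {σ σ' : ℕ → Fin 6} {i : ℕ} (hk : 1 ≤ k)
    (hx : AtV hΛ x σ) (hy : AtV hΛ y σ') (h : Flip k σ σ' i) :
    (prog k Λ).Improving x y ↔ pos (ori k true σ i) (σ' i) = ps k σ i + 1 := by
  unfold LP.Improving ps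
  rw [obj_eq (hΛ := hΛ) hk, obj_eq (hΛ := hΛ) hk, ← Coord.flip_improving hx hy h]
  constructor
  · rintro ⟨_, h1⟩; linarith
  · intro h1; exact ⟨edge_of_flip hx hy h, by linarith⟩

/-- the gain of an improving step -/
theorem gain_eq {x y : Fin (2 * k) → ℝ} {σ σ' : ℕ → Fin 6} {i : ℕ} (hk : 1 ≤ k)
    (hx : AtV hΛ x σ) (hy : AtV hΛ y σ') (h : Flip k σ σ' i)
    (hp : pos (ori k true σ i) (σ' i) = ps k σ i + 1) :
    (prog k Λ).obj y - (prog k Λ).obj x =
      stv (ps k σ i) ((par k Λ hΛ).τ i) ((par k Λ hΛ).H i) ((crd k Λ hΛ).F x i) := by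
  rw [obj_eq (hΛ := hΛ) hk, obj_eq (hΛ := hΛ) hk]
  have h1 := Coord.flip_gain hx hy h
  have h2 := step_b h.2.1 hp ((par k Λ hΛ).τ i) ((par k Λ hΛ).H i) ((crd k Λ hΛ).F x i)
  unfold ps
  linarith

/-- the length of an improving step -/
theorem norm_eq {x y : Fin (2 * k) → ℝ} {σ σ' : ℕ → Fin 6} {i : ℕ}
    (hx : AtV hΛ x σ) (hy : AtV hΛ y σ') (h : Flip k σ σ' i)
    (hp : pos (ori k true σ i) (σ' i) = ps k σ i + 1) :
    ‖y - x‖ = if ps k σ i = 1 then
      (par k Λ hΛ).H i - 2 * (crd k Λ hΛ).F x i - 2 * (par k Λ hΛ).τ i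
      else (th Λ i : ℕ) * (par k Λ hΛ).τ i := by
  set C := crd k Λ hΛ with hC
  set p := par k Λ hΛ with hpp
  have hi := h.1
  have hτ : 0 < p.τ i := p.τpos i hi
  have hD := Coord.D_at hx hi
  have hθ1 : (1 : ℝ) ≤ (th Λ i : ℕ) := by exact_mod_cast th_pos hΛ i
  have hg := step_g h.2.1 hp hτ
  have hb := step_b h.2.1 hp (p.τ i) (p.H i) (C.F x i)
  -- coordinates
  have hodd : ∀ l < k, xe (y - x) (2 * l + 1) = C.F y (l + 1) - C.F x (l + 1) := by
    intro l hl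
    rw [crd_F y hl, crd_F x hl, xe_sub]; ring
  have heven : ∀ l < k, xe (y - x) (2 * l) = (th Λ l : ℕ) * (C.G y l - C.G x l) := by
    intro l hl
    have h1 := crd_G (hΛ := hΛ) y hl
    have h2 := crd_G (hΛ := hΛ) x hl
    rw [xe_sub, mul_sub, h1, h2]; ring
  have hdb : |bv (σ' i) (p.τ i) (p.H i) (C.F x i) - bv (σ i) (p.τ i) (p.H i) (C.F x i)| =
      stv (ps k σ i) (p.τ i) (p.H i) (C.F x i) := by
    have h1 : |sB (ori k true σ i)| = 1 := by
      generalize ori k true σ i = o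
      cases o <;> simp [sB]
    have h2 : 0 < stv (ps k σ i) (p.τ i) (p.H i) (C.F x i) := by
      unfold stv; split_ifs <;> linarith
    rw [← abs_of_pos h2, ps, ← hb, abs_mul, h1, one_mul]
  have hFi : |C.F y (i + 1) - C.F x (i + 1)| = stv (ps k σ i) (p.τ i) (p.H i) (C.F x i) := by
    rw [Coord.flip_F hx hy h (i + 1) hi, pr_self, hdb]
  have hGi : |C.G y i - C.G x i| = sth (ps k σ i) (p.τ i) := by
    rw [Coord.flip_G hx hy h i hi, if_pos rfl]; exact hg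
  have hFall : ∀ l ≤ k, |C.F y l - C.F x l| ≤ stv (ps k σ i) (p.τ i) (p.H i) (C.F x i) := by
    intro l hl
    rw [Coord.flip_F hx hy h l hl, ← hdb]
    exact Coord.abs_pr_le _ _ _ _
  have hGall : ∀ l < k, |(th Λ l : ℕ) * (C.G y l - C.G x l)| ≤
      (th Λ i : ℕ) * sth (ps k σ i) (p.τ i) := by
    intro l hl
    by_cases hli : l = i
    · subst hli; rw [abs_mul, hGi, Nat.abs_cast]
    · rw [Coord.flip_G hx hy h l hl, if_neg hli]
      simp only [mul_zero, abs_zero]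
      apply mul_nonneg (Nat.cast_nonneg _)
      unfold sth; split_ifs <;> linarith
  have hle : ∀ M : ℝ, 0 ≤ M → (stv (ps k σ i) (p.τ i) (p.H i) (C.F x i) ≤ M) →
      ((th Λ i : ℕ) * sth (ps k σ i) (p.τ i) ≤ M) → ‖y - x‖ ≤ M := by
    intro M hM h1 h2
    rw [pi_norm_le_iff_of_nonneg hM]
    intro j
    have hl : (j : ℕ) / 2 < k := by omega
    rw [← xe_fin (y - x) j, Real.norm_eq_abs]
    rcases Nat.mod_two_eq_zero_or_one (j : ℕ) with h' | h'
    · have hj : (j : ℕ) = 2 * ((j : ℕ) / 2) := by omega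
      rw [hj, heven _ hl]
      exact (hGall _ hl).trans h2
    · have hj : (j : ℕ) = 2 * ((j : ℕ) / 2) + 1 := by omega
      rw [hj, hodd _ hl]
      exact (hFall _ (by omega)).trans h1
  have hge : ∀ n < 2 * k, |xe (y - x) n| ≤ ‖y - x‖ := by
    intro n hn
    have := norm_le_pi_norm (y - x) ⟨n, hn⟩
    rw [Real.norm_eq_abs] at this
    simpa [xe, hn] using this
  by_cases hq : ps k σ i = 1
  · rw [if_pos hq]
    apply le_antisymm
    · apply hle
      · linarith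
      · rw [hq]; simp [stv]
      · rw [hq]; simp only [sth, if_true, mul_zero]; linarith
    · have := hge (2 * i + 1) (by omega)
      rw [hodd i hi, hFi, hq] at this
      simpa [stv] using this
  · rw [if_neg hq]
    apply le_antisymm
    · apply hle
      · positivity
      · simp only [stv, if_neg hq]; nlinarith
      · simp only [sth, if_neg hq]; exact le_rfl
    · have := hge (2 * i) (by omega)
      rw [heven i hi, abs_mul, hGi, Nat.abs_cast] at this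
      simpa [sth, if_neg hq] using this

/-- the row left by a step -/
theorem leaves_iff {x y : Fin (2 * k) → ℝ} {σ σ' : ℕ → Fin 6} {i : ℕ}
    (hx : AtV hΛ x σ) (hy : AtV hΛ y σ') (h : Flip k σ σ' i) (r : Fin (6 * k)) :
    (prog k Λ).Leaves x y r ↔ r = rix i h.1 (lv (σ i) (σ' i)) := by
  set C := crd k Λ hΛ with hC
  set p := par k Λ hΛ with hpp
  have hl : (r : ℕ) / 6 < k := by omega
  set l := (r : ℕ) / 6 with hldef
  set e := Fin.ofNat 6 (r : ℕ) with hedef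
  have hθ : (0 : ℝ) < (th Λ l : ℕ) := by exact_mod_cast th_pos hΛ l
  have sx := slack_eq (hΛ := hΛ) x r (l := l) rfl (e := e) rfl
  have sy := slack_eq (hΛ := hΛ) y r (l := l) rfl (e := e) rfl
  have hxt := Coord.At.tight hx hl (e := e)
  have hyt := Coord.At.tight hy hl (e := e)
  have hyn := (Coord.mem_poly _ _).1 (Coord.At.mem hy) l hl e
  have key : (prog k Λ).Leaves x y r ↔ (e = σ l ∨ e = prd (σ l)) ∧
      ¬ (e = σ' l ∨ e = prd (σ' l)) := by
    rw [← hxt, ← hyt]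
    unfold LP.Leaves
    constructor
    · rintro ⟨h1, h2⟩
      constructor
      · rw [h1, sub_self] at sx
        exact (mul_eq_zero.1 sx.symm).resolve_left hθ.ne'
      · intro h3
        change sl6 e (p.τ l) (p.H l) (C.G y l) (C.F y l) (C.F y (l + 1)) = 0 at h3
        rw [h3] at sy
        linarith
    · rintro ⟨h1, h2⟩
      constructor
      · change sl6 e (p.τ l) (p.H l) (C.G x l) (C.F x l) (C.F x (l + 1)) = 0 at h1
        rw [h1] at sx; linarith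
      · have h3 : 0 < sl6 e (p.τ l) (p.H l) (C.G y l) (C.F y l) (C.F y (l + 1)) :=
          lt_of_le_of_ne hyn (Ne.symm h2)
        have := mul_pos hθ h3
        linarith
  rw [key]
  by_cases hli : l = i
  · rw [hli, lv_iff h.2.1]
    constructor
    · intro he
      ext
      have h2 : (e : ℕ) = (r : ℕ) % 6 := by simp [hedef, Fin.ofNat]
      simp only [rix, ← he]
      omega
    · intro hr
      rw [hedef, hr, rix_mod]
  · rw [h.2.2 l hl hli]
    constructor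
    · rintro ⟨h1, h2⟩; exact absurd h1 h2
    · intro hr
      exfalso
      apply hli
      rw [hldef, hr, rix_div]

/-- slack of the row left by an improving step -/
theorem leave_slack {x y : Fin (2 * k) → ℝ} {σ σ' : ℕ → Fin 6} {i : ℕ}
    (hx : AtV hΛ x σ) (hy : AtV hΛ y σ') (h : Flip k σ σ' i)
    (hp : pos (ori k true σ i) (σ' i) = ps k σ i + 1) {r : Fin (6 * k)}
    (hr : (prog k Λ).Leaves x y r) :
    ((prog k Λ).b r : ℝ) - (prog k Λ).row r y = (th Λ i : ℕ) *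
      stl (ps k σ i) ((par k Λ hΛ).τ i) ((par k Λ hΛ).H i) ((crd k Λ hΛ).F x i) := by
  rw [leaves_iff hx hy h] at hr
  rw [hr, slack_rix (hΛ := hΛ) y h.1, (hy i h.1).1, (hy i h.1).2,
    Coord.flip_low hx hy h i le_rfl, step_l h.2.1 hp]
  rfl

end Pool.Agent.Simplex
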